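import Pool.Agent.H653R4.Defs

set_option autoImplicit false
set_option maxHeartbeats 4000000

/-! Virtual surjections project (helper653): definitions and tasks -/

namespace Pool.Agent.H653R5

open Pool.Agent.H653R4

/-- type `FP_m` -/
def FPm (m : ℕ) (G : Type) [Group G] : Prop := FPx (ZG G) (m + 1) (Tr G)

/-- group extensions -/
def TExt : Prop := ∀ (N G H : Type) [Group N] [Group G] [Group H] (ι : N →* G) (p : G →* H),
  Function.Injective ι → Function.Surjective p → (∀ g, p g = 1 ↔ ∃ n, ι n = g) →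
  ∀ m, FPm m N → FPm m H → FPm m G

/-- subgroups of finite index -/
def TFin : Prop := ∀ (H G : Type) [Group H] [Group G] (ι : H →* G), Function.Injective ι →
  ι.range.FiniteIndex → ∀ m, FPm m G → FPm m H

/-- finitely generated groups are of type `FP_1` -/
def TFG1 : Prop := ∀ (G : Type) [Group G], Group.FG G → FPm 1 G

/-- poly-(cyclic or finite) groups -/
inductive PC : (G : Type) → Group G → Prop
  | cyc (G : Type) [h : Group G] : IsCyclic G → PC G h
  | fin (G : Type) [h : Group G] : Finite G → PC G h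
  | ext (N G H : Type) [hN : Group N] [hG : Group G] [hH : Group H] (ι : N →* G) (p : G →* H) :
      Function.Injective ι → Function.Surjective p → (∀ g, p g = 1 ↔ ∃ n, ι n = g) →
      PC N hN → PC H hH → PC G hG

/-- poly-(cyclic or finite) groups are of type `FP_m` -/
def TPC1 : Prop := ∀ (G : Type) [h : Group G], PC G h → ∀ m, FPm m G

/-- poly-(cyclic or finite) groups are finitely presented -/
def TPC2 : Prop := ∀ (G : Type) [h : Group G], PC G h → FPres G

/-- subgroups of poly-(cyclic or finite) groups -/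
def TPC3 : Prop := ∀ (G H : Type) [h : Group G] [h' : Group H] (ι : H →* G),
  Function.Injective ι → PC G h → PC H h'

/-- finitely generated nilpotent groups -/
def TNil : Prop := ∀ (G : Type) [h : Group G], Group.FG G → Group.IsNilpotent G → PC G h

/-- finitely generated virtually nilpotent groups -/
def TVN : Prop := ∀ (G : Type) [h : Group G], Group.FG G →
  (∃ L : Subgroup G, L.FiniteIndex ∧ Group.IsNilpotent L) → PC G h

/-- the commutator argument -/
def T8 : Prop := ∀ (G : Type) [Group G] (n : ℕ) (B : Subgroup G) (C : Fin n → Subgroup G),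
  B.Normal → (∀ j, (C j).Normal) → (∀ j, (C j ⊔ B).FiniteIndex) →
  ∀ (Q : Type) [h : Group Q] (q : G →* Q), Function.Surjective q →
    (∀ x, q x = 1 ↔ x ∈ (⨅ j, C j) ⊔ B) → Group.FG Q → PC Q h

/-- `P` virtually surjects to `k`-tuples: for `i` not in `J`, `|J| < k`, the elements which are
trivial in the coordinates in `J` project to a subgroup of finite index of `Γ i` -/
def VS {n : ℕ} (Γ : Fin n → Type) [∀ i, Group (Γ i)] {P : Type} [Group P]
    (f : ∀ i, P →* Γ i) (k : ℕ) : Prop :=
  ∀ (i : Fin n) (J : Finset (Fin n)), i ∉ J → J.card + 1 ≤ k →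
    ((⨅ j ∈ J, (f j).ker).map (f i)).FiniteIndex

/-- the kernel of a projection is finitely generated -/
def T9 : Prop := ∀ (n : ℕ) (Γ : Fin (n + 1) → Type) [∀ i, Group (Γ i)] (P : Type) [Group P]
  (f : ∀ i, P →* Γ i), (∀ x, (∀ i, f i x = 1) → x = 1) → (∀ i, Group.FG (Γ i)) → VS Γ f 2 →
  (f 0).ker.FG

/-- the `n-(n+1)-(n+2)` theorem in terms of two normal subgroups with trivial intersection -/
def T10 : Prop := ∀ (P : Type) [Group P] (A B : Subgroup P) [A.Normal] [B.Normal], A ⊓ B = ⊥ →
  ∀ k, FPm k A → FPm (k + 1) (P ⧸ A) → FPm (k + 1) (P ⧸ B) → FPm (k + 2) (P ⧸ (A ⊔ B)) →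
  FPres (P ⧸ (A ⊔ B)) → Group.FG (P ⧸ A) → FPm (k + 1) P

/-- translation of virtual surjection to `k`-tuples -/
def T12 : Prop := ∀ (n k : ℕ), 1 ≤ k → k ≤ n → ∀ (Γ : Fin n → Type) [∀ i, Group (Γ i)]
  (P : Subgroup (∀ i, Γ i)),
  (∀ J : Finset (Fin n), J.card = k → (P.map (MonoidHom.pi
    (fun j : ↥J => Pi.evalMonoidHom Γ (j : Fin n)))).index ≠ 0) →
  VS Γ (fun i => (Pi.evalMonoidHom Γ i).comp P.subtype) k

end Pool.Agent.H653R5
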