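import Pool.Agent.H653R5.Defs
import Pool.Agent.H653R4.Start
import Pool.Agent.H653R4.V
import Pool.Agent.H653R4.Restr
import Pool.Agent.H653R4.Sch
import Pool.Agent.H653R4.Extn
import Pool.Agent.H653R4.IC
import Pool.Agent.H653R4.Ker
import Pool.Agent.H653R4.N0

set_option autoImplicit false
set_option maxHeartbeats 4000000

/-! Task Ext of project H653-VS (helper884) -/

namespace Pool.Agent.H653R5

open Pool.Agent.H653R4

theorem task_Ext : TExt := by
  intro N G H _ _ _ ι p hi hp hk m hN hH
  have hE := task_Equiv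
  have hS := task_Sch
  have hX := task_Extn hE hS
  have hR := task_Restr hE hS hX
  have hV := task_V hE hS task_IC task_Ker (task_N0 hE hS)
  letI i1 : Module (ZG G) (ZG H) := Module.compHom (ZG H) (rm p)
  letI i2 : Module (ZG G) (Tr H) := Module.compHom (Tr H) (rm p)
  have h1 : FPx (ZG G) (m + 1) (Tr H) :=
    hR (ZG G) (ZG H) (rm p) (fun s x => rfl) (StartAux.rm_surj p hp) (m + 1)
      (StartAux.fpV hE hV ι p hi hp hk (m + 1) hN) (Tr H) (fun s a => rfl) hH
  let L : ZG G →ₗ[ZG G] Tr H :=
    { toFun := fun x => (KR (1 : H →* Unit)).mkQ (rm p x)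
      map_add' := fun x y => by rw [map_add, map_add]
      map_smul' := fun a x => by
        rw [smul_eq_mul, map_mul]
        rfl }
  have hL : ∀ x, L x = (KR (1 : H →* Unit)).mkQ (rm p x) := fun x => rfl
  have hker : LinearMap.ker L = KR (1 : G →* Unit) := by
    ext x
    rw [LinearMap.mem_ker, hL, Submodule.mkQ_apply, Submodule.Quotient.mk_eq_zero]
    change rm (1 : H →* Unit) (rm p x) = 0 ↔ rm (1 : G →* Unit) x = 0
    rw [StartAux.rm_rm]
  have hsurj : Function.Surjective L := by
    intro y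
    obtain ⟨z, hz⟩ := Submodule.mkQ_surjective _ y
    obtain ⟨x, hx⟩ := StartAux.rm_surj p hp z
    exact ⟨x, by rw [hL, hx, hz]⟩
  refine hE (ZG G) (m + 1) (Tr H) (Tr G) ⟨?_⟩ h1
  exact ((Submodule.quotEquivOfEq _ _ hker.symm).trans
    (LinearMap.quotKerEquivOfSurjective L hsurj)).symm

end Pool.Agent.H653R5
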