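import Pool.Agent.H653R5.Defs
import Pool.Agent.H653R4.N0
import Pool.Agent.H653R4.Sch
import Pool.Agent.H653R4.ResB

set_option autoImplicit false

/-! Task FG1: finitely generated groups are of type `FP_1` (helper722) -/

namespace Pool.Agent.H653R5

open Pool.Agent.H653R4

namespace FG1Aux

theorem el_mul' {G : Type} [Group G] (g h : G) : (el (g * h) : ZG G) = el g * el h := by
  unfold el
  exact map_mul _ _ _

theorem mem_I {G : Type} [Group G] (s : Set G) (hs : Subgroup.closure s = ⊤) (g : G) :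
    (el g - 1 : ZG G) ∈ Submodule.span (ZG G) ((fun g => (el g - 1 : ZG G)) '' s) := by
  have hg : g ∈ Subgroup.closure s := by
    rw [hs]
    trivial
  induction hg using Subgroup.closure_induction with
  | mem x hx => exact Submodule.subset_span ⟨x, hx, rfl⟩
  | one =>
    rw [N0_el_one, sub_self]
    exact Submodule.zero_mem _
  | mul x y _ _ hx hy =>
    have e : (el (x * y) - 1 : ZG G) = el x • (el y - 1) + (el x - 1) := by
      rw [el_mul', smul_eq_mul, mul_sub, mul_one]
      abel
    rw [e]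
    exact Submodule.add_mem _ (Submodule.smul_mem _ _ hy) hx
  | inv x _ hx =>
    have e : (el x⁻¹ - 1 : ZG G) = -(el x⁻¹ • (el x - 1)) := by
      rw [smul_eq_mul, mul_sub, ← el_mul', inv_mul_cancel, N0_el_one, mul_one]
      abel
    rw [e]
    exact Submodule.neg_mem _ (Submodule.smul_mem _ _ hx)

theorem sub_aug {G : Type} [Group G] (s : Set G) (hs : Subgroup.closure s = ⊤) (x : ZG G) :
    x - (ResBAux.aug G x) • (1 : ZG G) ∈
      Submodule.span (ZG G) ((fun g => (el g - 1 : ZG G)) '' s) := by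
  induction x using MonoidAlgebra.induction_on with
  | of g =>
    rw [ResBAux.aug_of, one_smul]
    exact mem_I s hs g
  | add x y hx hy =>
    have e : x + y - (ResBAux.aug G (x + y)) • (1 : ZG G) =
        (x - (ResBAux.aug G x) • (1 : ZG G)) + (y - (ResBAux.aug G y) • (1 : ZG G)) := by
      rw [map_add, add_smul]
      abel
    rw [e]
    exact Submodule.add_mem _ hx hy
  | smul r x hx =>
    have e : r • x - (ResBAux.aug G (r • x)) • (1 : ZG G) =
        r • (x - (ResBAux.aug G x) • (1 : ZG G)) := by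
      rw [map_zsmul, smul_sub, smul_smul, smul_eq_mul]
    rw [e]
    exact zsmul_mem hx r

theorem KR_fg {G : Type} [Group G] (hG : Group.FG G) : (KR (1 : G →* Unit)).FG := by
  obtain ⟨s, hs, hfin⟩ := Group.fg_iff.1 hG
  have hfin2 : ((fun g => (el g - 1 : ZG G)) '' s).Finite := hfin.image _
  refine ⟨hfin2.toFinset, ?_⟩
  rw [Set.Finite.coe_toFinset]
  apply le_antisymm
  · rw [Submodule.span_le]
    rintro _ ⟨g, _, rfl⟩
    show rm (1 : G →* Unit) (el g - 1) = 0
    rw [map_sub, map_one, N0_rm_el]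
    have : (1 : G →* Unit) g = 1 := rfl
    rw [this, N0_el_one, sub_self]
  · intro x hx
    have h1 := sub_aug s hs x
    rw [(ResBAux.aug_eq_zero G x).2 hx, zero_smul, sub_zero] at h1
    exact h1

end FG1Aux

open FG1Aux in
theorem task_FG1 : TFG1 := by
  intro G _ hG
  have hfg := KR_fg hG
  have hker : LinearMap.ker (KR (1 : G →* Unit)).mkQ = KR (1 : G →* Unit) :=
    Submodule.ker_mkQ _
  have h1 : FPx (ZG G) 1 (LinearMap.ker (KR (1 : G →* Unit)).mkQ) := by
    rw [hker]
    have hfin : Module.Finite (ZG G) (KR (1 : G →* Unit)) := Module.Finite.iff_fg.2 hfg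
    obtain ⟨k, f, hf⟩ := Module.Finite.exists_fin' (ZG G) (KR (1 : G →* Unit))
    exact ⟨k, f, hf, trivial⟩
  exact (task_Sch (ZG G) 1 (Tr G) (ZG G) 1
    ⟨(LinearEquiv.funUnique (Fin 1) (ZG G) (ZG G)).symm⟩ (KR (1 : G →* Unit)).mkQ
    (KR (1 : G →* Unit)).mkQ_surjective).2 h1

end Pool.Agent.H653R5
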