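import Pool.Agent.H653R5.Defs
import Pool.Agent.H653R4.Sch
import Pool.Agent.H653R4.Cmp

set_option autoImplicit false
set_option maxHeartbeats 4000000

namespace Pool.Agent.H653R5

open Pool.Agent.H653R4 Pool.Agent.H653R4.CmpAux

theorem aug_span {G : Type} [Group G] (y : ZG G) : ∃ S : Finset G, ∀ H : Subgroup G,
    (S : Set G) ⊆ H → y - rm (1 : Unit →* G) (rm (1 : G →* Unit) y) ∈
      Submodule.span (ZG G) {z | ∃ h ∈ H, z = el h - 1} := by
  classical
  induction y using MonoidAlgebra.induction_on with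
  | of g =>
    refine ⟨{g}, fun H hH => ?_⟩
    change el g - rm (1 : Unit →* G) (rm (1 : G →* Unit) (el g)) ∈ _
    rw [rm_el, rm_el]
    have : el ((1 : Unit →* G) ((1 : G →* Unit) g)) = (1 : ZG G) := by
      rw [MonoidHom.one_apply]; exact el_one
    rw [this]
    exact Submodule.subset_span ⟨g, hH (by simp), rfl⟩
  | add x y hx hy =>
    obtain ⟨S, hS⟩ := hx
    obtain ⟨S', hS'⟩ := hy
    refine ⟨S ∪ S', fun H hH => ?_⟩
    rw [Finset.coe_union, Set.union_subset_iff] at hH
    have e : x + y - rm (1 : Unit →* G) (rm (1 : G →* Unit) (x + y)) =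
      (x - rm (1 : Unit →* G) (rm (1 : G →* Unit) x)) +
      (y - rm (1 : Unit →* G) (rm (1 : G →* Unit) y)) := by
      rw [map_add, map_add]; abel
    rw [e]
    exact add_mem (hS H hH.1) (hS' H hH.2)
  | smul r x hx =>
    obtain ⟨S, hS⟩ := hx
    refine ⟨S, fun H hH => ?_⟩
    rw [map_zsmul, map_zsmul, ← smul_sub]
    exact zsmul_mem (hS H hH) r

theorem task_FG2 : ∀ (G : Type) [Group G], FPm 1 G → Group.FG G := by
  intro G _ h
  classical
  have h1 : FPx (ZG G) 1 (LinearMap.ker (Submodule.mkQ (KR (1 : G →* Unit)))) := by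
    have e : Nonempty (ZG G ≃ₗ[ZG G] (Fin 1 → ZG G)) :=
      ⟨(LinearEquiv.funUnique (Fin 1) (ZG G) (ZG G)).symm⟩
    exact (task_Sch (ZG G) 1 (Tr G) (ZG G) 1 e (Submodule.mkQ (KR (1 : G →* Unit)))
      (Submodule.mkQ_surjective _)).1 h
  obtain ⟨r, f, hf, -⟩ := h1
  let y : Fin r → ZG G := fun i => (f (Pi.single i 1) : ZG G)
  choose S0 hS0 using fun i => aug_span (y i)
  let S : Finset G := Finset.univ.biUnion S0
  let H : Subgroup G := Subgroup.closure (S : Set G)
  let I : Submodule (ZG G) (ZG G) := Submodule.span (ZG G) {z | ∃ h ∈ H, z = el h - 1}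
  have hy : ∀ i, y i ∈ I := by
    intro i
    have hk : rm (1 : G →* Unit) (y i) = 0 := by
      have h2 : (y i) ∈ LinearMap.ker (Submodule.mkQ (KR (1 : G →* Unit))) :=
        (f (Pi.single i 1)).2
      have h3 : (y i) ∈ KR (1 : G →* Unit) := by
        simpa only [Submodule.ker_mkQ] using h2
      exact h3
    have h2 := hS0 i H (fun g hg => Subgroup.subset_closure
      (Finset.mem_coe.2 (Finset.mem_biUnion.2 ⟨i, Finset.mem_univ _, hg⟩)))
    rwa [hk, map_zero, sub_zero] at h2
  have hall : ∀ z ∈ KR (1 : G →* Unit), z ∈ I := by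
    intro z hz
    obtain ⟨v, hv⟩ := hf ⟨z, by rw [Submodule.ker_mkQ]; exact hz⟩
    have h5 : z = ∑ i, v i • y i := by
      have h6 : v = ∑ i, v i • (Pi.single i (1 : ZG G) : Fin r → ZG G) := by
        funext j
        simp [Finset.sum_apply, Pi.single_apply]
      have h7 := congrArg Subtype.val hv
      rw [h6, map_sum] at h7
      simp only [map_smul] at h7
      rw [← h7]
      simp [y]
    rw [h5]
    exact Submodule.sum_mem _ fun i _ => Submodule.smul_mem _ _ (hy i)
  -- the map to `ℤ[G/H]`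
  let q : ZG G →+ MonoidAlgebra ℤ (G ⧸ H) :=
    AddMonoidHom.mk' (fun z => MonoidAlgebra.mapDomain (QuotientGroup.mk : G → G ⧸ H) z)
      (fun a b => MonoidAlgebra.mapDomain_add _ _ _)
  have e1 : ∀ g : G, q (el g) = MonoidAlgebra.single (QuotientGroup.mk g : G ⧸ H) 1 := by
    intro g
    exact MonoidAlgebra.mapDomain_single
  have hq : ∀ (x : ZG G) (h : G), h ∈ H → q (x * (el h - 1)) = 0 := by
    intro x h hh
    induction x using MonoidAlgebra.induction_on with
    | of g =>
      change q (el g * (el h - 1)) = 0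
      rw [mul_sub, mul_one, ← el_mul, map_sub]
      rw [e1, e1]
      have : (QuotientGroup.mk (g * h) : G ⧸ H) = QuotientGroup.mk g := by
        rw [QuotientGroup.eq]
        simpa using hh
      rw [this, sub_self]
    | add x y hx hy => rw [add_mul, map_add, hx, hy, add_zero]
    | smul r x hx => rw [smul_mul_assoc, map_zsmul, hx, smul_zero]
  have hqI : ∀ z ∈ I, q z = 0 := by
    intro z hz
    have h8 : ∀ x : ZG G, q (x * z) = 0 := by
      induction hz using Submodule.span_induction with
      | mem z hz =>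
        obtain ⟨h, hh, rfl⟩ := hz
        exact fun x => hq x h hh
      | zero => intro x; rw [mul_zero, map_zero]
      | add a b _ _ ha hb => intro x; rw [mul_add, map_add, ha, hb, add_zero]
      | smul s a _ ha => intro x; rw [smul_eq_mul, ← mul_assoc]; exact ha _
    simpa using h8 1
  refine ⟨⟨S, ?_⟩⟩
  rw [eq_top_iff]
  intro g _
  have h9 : el g - 1 ∈ KR (1 : G →* Unit) := by
    change rm (1 : G →* Unit) (el g - 1) = 0
    rw [map_sub, map_one, rm_el]
    have : el ((1 : G →* Unit) g) = (1 : ZG Unit) := by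
      rw [MonoidHom.one_apply]; exact el_one
    rw [this, sub_self]
  have h10 := hqI _ (hall _ h9)
  rw [map_sub, ← el_one, sub_eq_zero, e1, e1] at h10
  have h11 : (QuotientGroup.mk g : G ⧸ H) = QuotientGroup.mk 1 := by
    by_contra hne
    have h12 := congrArg (fun z => MonoidAlgebra.coeff z (QuotientGroup.mk g : G ⧸ H)) h10
    simp [Finsupp.single_apply, Ne.symm hne] at h12
  have h13 := QuotientGroup.eq.1 h11
  have : g⁻¹ ∈ H := by simpa using h13
  exact (Subgroup.inv_mem_iff H).1 this

end Pool.Agent.H653R5
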