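import Pool.Agent.H653R5.Defs
import Pool.Agent.H653R5.FG2

set_option autoImplicit false
set_option maxHeartbeats 4000000

namespace Pool.Agent.H653R5

open Pool.Agent.H653R4 Pool.Agent.H653R4.CmpAux

theorem task_FG1' : TFG1 := by
  intro G _ hG
  classical
  obtain ⟨⟨S, hS⟩⟩ := hG
  have e : Nonempty (ZG G ≃ₗ[ZG G] (Fin 1 → ZG G)) :=
    ⟨(LinearEquiv.funUnique (Fin 1) (ZG G) (ZG G)).symm⟩
  refine (task_Sch (ZG G) 1 (Tr G) (ZG G) 1 e (Submodule.mkQ (KR (1 : G →* Unit)))
      (Submodule.mkQ_surjective _)).2 ?_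
  let J : Submodule (ZG G) (ZG G) :=
    Submodule.span (ZG G) ((S.image fun s => el s - 1 : Finset (ZG G)) : Set (ZG G))
  have hJ : ∀ h : G, el h - 1 ∈ J := by
    intro h
    have hh : h ∈ Subgroup.closure (S : Set G) := by rw [hS]; trivial
    induction hh using Subgroup.closure_induction with
    | mem x hx => exact Submodule.subset_span (by
        rw [Finset.coe_image]; exact ⟨x, hx, rfl⟩)
    | one => rw [el_one, sub_self]; exact zero_mem _
    | mul x y _ _ hx hy =>
      have : el (x * y) - 1 = el x • (el y - 1) + (el x - 1) := by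
        rw [el_mul, smul_eq_mul, mul_sub, mul_one]; abel
      rw [this]
      exact add_mem (Submodule.smul_mem _ _ hy) hx
    | inv x _ hx =>
      have : el x⁻¹ - 1 = -(el x⁻¹ • (el x - 1)) := by
        rw [smul_eq_mul, mul_sub, mul_one, ← el_mul, inv_mul_cancel, el_one]; abel
      rw [this]
      exact neg_mem (Submodule.smul_mem _ _ hx)
  have hk : LinearMap.ker (Submodule.mkQ (KR (1 : G →* Unit))) = J := by
    rw [Submodule.ker_mkQ]
    apply le_antisymm
    · intro z hz
      obtain ⟨S', h⟩ := aug_span z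
      have h1 := h ⊤ (fun _ _ => trivial)
      rw [show rm (1 : G →* Unit) z = 0 from hz, map_zero, sub_zero] at h1
      refine Submodule.span_le.2 ?_ h1
      rintro _ ⟨h, -, rfl⟩
      exact hJ h
    · refine Submodule.span_le.2 ?_
      intro z hz
      rw [Finset.coe_image] at hz
      obtain ⟨s, -, rfl⟩ := hz
      change rm (1 : G →* Unit) (el s - 1) = 0
      rw [map_sub, map_one, rm_el]
      have : el ((1 : G →* Unit) s) = (1 : ZG Unit) := by
        rw [MonoidHom.one_apply]; exact el_one
      rw [this, sub_self]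
  have hfg : (LinearMap.ker (Submodule.mkQ (KR (1 : G →* Unit)))).FG := by
    rw [hk]; exact ⟨_, rfl⟩
  have hfin : Module.Finite (ZG G) (LinearMap.ker (Submodule.mkQ (KR (1 : G →* Unit)))) :=
    Module.Finite.iff_fg.2 hfg
  obtain ⟨k, f, hf⟩ := Module.Finite.exists_fin' (ZG G)
    (LinearMap.ker (Submodule.mkQ (KR (1 : G →* Unit))))
  exact ⟨k, f, hf, trivial⟩

end Pool.Agent.H653R5
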