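import Pool.Agent.H653R5.Defs
import Pool.Agent.H653R4.Sch
import Pool.Agent.H653R4.IC
import Pool.Agent.H653R4.Start

set_option autoImplicit false
set_option maxHeartbeats 4000000

/-! Task Fin: subgroups of finite index of groups of type `FP_m` -/

namespace Pool.Agent.H653R5

open Pool.Agent.H653R4

namespace FinAux

theorem pi_equiv (S : Type) [Ring S] (n r : ℕ) (M : Type) [AddCommGroup M] [Module S M]
    (e : M ≃ₗ[S] (Fin r → S)) : Nonempty ((Fin n → M) ≃ₗ[S] (Fin (n * r) → S)) := by
  have e1 : (Fin n → M) ≃ₗ[S] (Fin n → Fin r → S) := LinearEquiv.piCongrRight (fun _ => e)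
  have e2 : (Fin n → Fin r → S) ≃ₗ[S] (Fin n × Fin r → S) :=
    (LinearEquiv.curry S S (Fin n) (Fin r)).symm
  have e3 : (Fin n × Fin r → S) ≃ₗ[S] (Fin (n * r) → S) :=
    LinearEquiv.funCongrLeft S S finProdFinEquiv.symm
  exact ⟨e1.trans (e2.trans e3)⟩

theorem restr (S S' : Type) [Ring S] [Ring S'] (ρ : S' →+* S) [Module S' S]
    (hS : ∀ (s : S') (x : S), s • x = ρ s * x) (r : ℕ) (e : S ≃ₗ[S'] (Fin r → S')) :
    ∀ (k : ℕ) (M : Type) [AddCommGroup M] [Module S M] [Module S' M],
      (∀ (s : S') (m : M), s • m = ρ s • m) → FPx S k M → FPx S' k M := by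
  intro k
  induction k with
  | zero => intro M _ _ _ _ _; trivial
  | succ k ih =>
    intro M _ _ _ hM h
    obtain ⟨n, f, hf, hk⟩ := h
    let f' : (Fin n → S) →ₗ[S'] M :=
      { toFun := f
        map_add' := map_add f
        map_smul' := by
          intro s x
          have : s • x = ρ s • x := by
            funext i
            rw [Pi.smul_apply, Pi.smul_apply, hS, smul_eq_mul]
          rw [this, map_smul, RingHom.id_apply, hM] }
    obtain ⟨en⟩ := pi_equiv S' n r S e
    refine (task_Sch S' k M (Fin n → S) (n * r) ⟨en⟩ f' hf).2 ?_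
    letI : Module S' (LinearMap.ker f) := Module.compHom _ ρ
    have h1 : FPx S' k (LinearMap.ker f) := ih (LinearMap.ker f) (fun s m => rfl) hk
    refine task_Equiv S' k (LinearMap.ker f) (LinearMap.ker f') ⟨?_⟩ h1
    exact
      { toFun := fun x => ⟨x.1, x.2⟩
        invFun := fun x => ⟨x.1, x.2⟩
        left_inv := fun x => rfl
        right_inv := fun x => rfl
        map_add' := fun x y => rfl
        map_smul' := fun s x => by
          apply Subtype.ext
          change ρ s • x.1 = s • x.1
          funext i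
          rw [Pi.smul_apply, Pi.smul_apply, hS, smul_eq_mul] }

section
variable {H G : Type} [Group H] [Group G]

theorem coeff_mul_el (y : ZG G) (t g : G) : (y * el t).coeff g = y.coeff (g * t⁻¹) := by
  unfold el
  rw [MonoidAlgebra.of_apply, MonoidAlgebra.coeff_mul_single_apply, mul_one]

theorem coeff_rm (ι : H →* G) (hι : Function.Injective ι) (x : ZG H) (t g : G)
    [Decidable (g * t ∈ ι.range)] (n : H) (hn : g * t ∈ ι.range → ι n = g * t) :
    (rm ι x * el t⁻¹).coeff g = if g * t ∈ ι.range then x.coeff n else 0 := by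
  rw [coeff_mul_el, inv_inv]
  split_ifs with h
  · rw [← hn h, IC.rm_coeff ι hι]
  · exact IC.rm_coeff_not ι _ _ h

/-- `ℤG` is free of finite rank over `ℤH` -/
theorem free (ι : H →* G) (hι : Function.Injective ι) (hfin : ι.range.FiniteIndex) :
    ∃ r : ℕ, Nonempty (@LinearEquiv (ZG H) (ZG H) _ _ (RingHom.id _) (RingHom.id _) _ _
      (ZG G) (Fin r → ZG H) _ _ (Module.compHom (ZG G) (rm ι)) _) := by
  classical
  letI : Module (ZG H) (ZG G) := Module.compHom (ZG G) (rm ι)
  haveI : Finite (G ⧸ ι.range) := by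
    haveI := hfin
    infer_instance
  haveI : Fintype (G ⧸ ι.range) := Fintype.ofFinite _
  let T : G ⧸ ι.range → G := fun i => i.out
  have hT : ∀ (i : G ⧸ ι.range) (g : G), g * T i ∈ ι.range ↔ i = QuotientGroup.mk g⁻¹ := by
    intro i g
    constructor
    · intro h
      have h1 : (QuotientGroup.mk (g⁻¹) : G ⧸ ι.range) = QuotientGroup.mk (T i) := by
        rw [QuotientGroup.eq, inv_inv]
        exact h
      rw [h1]
      exact (QuotientGroup.out_eq' i).symm
    · intro h
      have h1 : (QuotientGroup.mk (g⁻¹) : G ⧸ ι.range) = QuotientGroup.mk (T i) := by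
        rw [← h]
        exact (QuotientGroup.out_eq' i).symm
      rw [QuotientGroup.eq, inv_inv] at h1
      exact h1
  let E : (G ⧸ ι.range → ZG H) ≃ₗ[ZG H] ZG G :=
    { toFun := fun x => ∑ i, rm ι (x i) * el (T i)⁻¹
      map_add' := by
        intro x y
        rw [← Finset.sum_add_distrib]
        apply Finset.sum_congr rfl
        intro i _
        rw [Pi.add_apply, map_add, add_mul]
      map_smul' := by
        intro s x
        change _ = rm ι s * _
        rw [Finset.mul_sum]
        apply Finset.sum_congr rfl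
        intro i _
        rw [Pi.smul_apply, smul_eq_mul, map_mul, mul_assoc]
      invFun := fun y i => IC.P ι hι (y * el (T i))
      left_inv := by
        intro x
        funext i
        ext h
        rw [IC.P_coeff, coeff_mul_el, MonoidAlgebra.coeff_sum, Finsupp.finsetSum_apply]
        rw [Finset.sum_eq_single i]
        · rw [coeff_mul_el, inv_inv, inv_mul_cancel_right, IC.rm_coeff ι hι]
        · intro j _ hj
          rw [coeff_mul_el, inv_inv]
          apply IC.rm_coeff_not
          intro hh
          apply hj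
          have h1 : ι h * (T i)⁻¹ * T j ∈ ι.range := hh
          rw [hT] at h1
          have h2 : i = QuotientGroup.mk (ι h * (T i)⁻¹)⁻¹ := by
            rw [← hT]
            rw [inv_mul_cancel_right]
            exact ⟨h, rfl⟩
          rw [h1, ← h2]
        · intro hh
          exact absurd (Finset.mem_univ i) hh
      right_inv := by
        intro y
        ext g
        rw [MonoidAlgebra.coeff_sum, Finsupp.finsetSum_apply]
        rw [Finset.sum_eq_single (QuotientGroup.mk g⁻¹)]
        · have h1 : g * T (QuotientGroup.mk g⁻¹) ∈ ι.range := (hT _ g).2 rfl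
          obtain ⟨n, hn⟩ := h1
          rw [coeff_mul_el, inv_inv, ← hn, IC.rm_coeff ι hι, IC.P_coeff, coeff_mul_el, hn,
            mul_inv_cancel_right]
        · intro j _ hj
          rw [coeff_mul_el, inv_inv]
          apply IC.rm_coeff_not
          intro hh
          exact hj ((hT j g).1 hh)
        · intro hh
          exact absurd (Finset.mem_univ _) hh }
  let E2 : (G ⧸ ι.range → ZG H) ≃ₗ[ZG H] (Fin (Fintype.card (G ⧸ ι.range)) → ZG H) :=
    LinearEquiv.funCongrLeft (ZG H) (ZG H) (Fintype.equivFin (G ⧸ ι.range)).symm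
  exact ⟨Fintype.card (G ⧸ ι.range), ⟨E.symm.trans E2⟩⟩

/-- the trivial module restricted to `H` -/
theorem tr_equiv (ι : H →* G) :
    Nonempty (@LinearEquiv (ZG H) (ZG H) _ _ (RingHom.id _) (RingHom.id _) _ _
      (Tr G) (Tr H) _ _ (Module.compHom (Tr G) (rm ι)) _) := by
  letI : Module (ZG H) (Tr G) := Module.compHom (Tr G) (rm ι)
  let L : ZG H →ₗ[ZG H] Tr G :=
    { toFun := fun x => (KR (1 : G →* Unit)).mkQ (rm ι x)
      map_add' := by intro x y; rw [map_add, map_add]
      map_smul' := by
        intro s x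
        change (KR (1 : G →* Unit)).mkQ (rm ι (s * x)) =
          rm ι s • (KR (1 : G →* Unit)).mkQ (rm ι x)
        rw [map_mul, ← map_smul]
        rfl }
  have hL : ∀ x, L x = 0 ↔ x ∈ KR (1 : H →* Unit) := by
    intro x
    change (KR (1 : G →* Unit)).mkQ (rm ι x) = 0 ↔ _
    rw [Submodule.mkQ_apply, Submodule.Quotient.mk_eq_zero]
    change rm (1 : G →* Unit) (rm ι x) = 0 ↔ rm (1 : H →* Unit) x = 0
    rw [StartAux.rm_rm]
  have hker : LinearMap.ker L = KR (1 : H →* Unit) := by
    ext x
    rw [LinearMap.mem_ker, hL]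
  have hsurj : Function.Surjective L := by
    intro y
    obtain ⟨z, rfl⟩ := Submodule.mkQ_surjective _ y
    refine ⟨rm (1 : G →* H) z, ?_⟩
    change (KR (1 : G →* Unit)).mkQ _ = _
    rw [← sub_eq_zero, ← map_sub, Submodule.mkQ_apply, Submodule.Quotient.mk_eq_zero]
    change rm (1 : G →* Unit) (_ - _) = 0
    rw [map_sub, StartAux.rm_rm, StartAux.rm_rm, sub_self]
  exact ⟨((Submodule.quotEquivOfEq _ _ hker).symm.trans
    (LinearMap.quotKerEquivOfSurjective L hsurj)).symm⟩

end

end FinAux

open FinAux in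
theorem task_Fin : TFin := by
  intro H G _ _ ι hι hfin m h
  obtain ⟨r, ⟨e⟩⟩ := free ι hι hfin
  obtain ⟨t⟩ := tr_equiv ι
  letI m1 : Module (ZG H) (ZG G) := Module.compHom (ZG G) (rm ι)
  letI m2 : Module (ZG H) (Tr G) := Module.compHom (Tr G) (rm ι)
  have h1 : FPx (ZG H) (m + 1) (Tr G) :=
    restr (ZG G) (ZG H) (rm ι) (fun s x => rfl) r e (m + 1) (Tr G) (fun s x => rfl) h
  exact task_Equiv (ZG H) (m + 1) (Tr G) (Tr H) ⟨t⟩ h1

end Pool.Agent.H653R5
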