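import Pool.Agent.H653R5.Defs
import Pool.Agent.H653R4.Core

set_option autoImplicit false
set_option maxHeartbeats 4000000

namespace Pool.Agent.H653R5

open Pool.Agent.H653R4

theorem mem_iInf_ker {n : ℕ} {Γ : Fin n → Type} [∀ i, Group (Γ i)] {P : Type} [Group P]
    (f : ∀ i, P →* Γ i) (J : Finset (Fin n)) (x : P) :
    x ∈ (⨅ j ∈ J, (f j).ker) ↔ ∀ j ∈ J, f j x = 1 := by
  simp only [Subgroup.mem_iInf, MonoidHom.mem_ker]

theorem vs_ker {n : ℕ} {Γ : Fin (n + 1) → Type} [∀ i, Group (Γ i)] {P : Type} [Group P]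
    (f : ∀ i, P →* Γ i) {k k' : ℕ} (h : VS Γ f k)
    (hk : ∀ (i : Fin n) (J : Finset (Fin n)), i ∉ J → J.card + 1 ≤ k' → J.card + 2 ≤ k) :
    VS (fun j => Γ (Fin.succ j)) (fun j => (f (Fin.succ j)).comp (f 0).ker.subtype) k' := by
  intro i J hi hJ
  classical
  have h1 := h (Fin.succ i) (insert 0 (J.map (Fin.succEmb n))) (by
    simp only [Finset.mem_insert, Finset.mem_map, Fin.coe_succEmb, not_or]
    refine ⟨Fin.succ_ne_zero i, ?_⟩
    rintro ⟨j, hj, hji⟩
    exact hi (Fin.succ_injective n hji ▸ hj)) (by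
    have := Finset.card_insert_le (0 : Fin (n + 1)) (J.map (Fin.succEmb n))
    rw [Finset.card_map] at this
    have := hk i J hi hJ
    omega)
  refine @Subgroup.finiteIndex_of_le _ _ _ _ h1 ?_
  rintro _ ⟨x, hx, rfl⟩
  have hx' := (mem_iInf_ker f _ x).1 hx
  have hx0 : x ∈ (f 0).ker := hx' 0 (Finset.mem_insert_self _ _)
  refine ⟨⟨x, hx0⟩, ?_, rfl⟩
  refine (mem_iInf_ker (Γ := fun j => Γ (Fin.succ j))
    (fun j => (f (Fin.succ j)).comp (f 0).ker.subtype) J _).2 ?_
  intro j hj
  exact hx' j.succ (Finset.mem_insert_of_mem (Finset.mem_map.2 ⟨j, hj, rfl⟩))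

theorem vs_quot {n : ℕ} {Γ : Fin (n + 1) → Type} [∀ i, Group (Γ i)] {P : Type} [Group P]
    (f : ∀ i, P →* Γ i) {k : ℕ} (h : VS Γ f k) (B : Subgroup P) [B.Normal]
    (hB : ∀ j : Fin n, B ≤ (f (Fin.succ j)).ker) :
    VS (fun j => Γ (Fin.succ j)) (fun j => QuotientGroup.lift B (f (Fin.succ j)) (hB j)) k := by
  intro i J hi hJ
  classical
  have h1 := h (Fin.succ i) (J.map (Fin.succEmb n)) (by
    simp only [Finset.mem_map, Fin.coe_succEmb]
    rintro ⟨j, hj, hji⟩
    exact hi (Fin.succ_injective n hji ▸ hj)) (by rw [Finset.card_map]; exact hJ)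
  refine @Subgroup.finiteIndex_of_le _ _ _ _ h1 ?_
  rintro _ ⟨x, hx, rfl⟩
  have hx' := (mem_iInf_ker f _ x).1 hx
  refine ⟨QuotientGroup.mk x, ?_, rfl⟩
  refine (mem_iInf_ker (Γ := fun j => Γ (Fin.succ j))
    (fun j => QuotientGroup.lift B (f (Fin.succ j)) (hB j)) J _).2 ?_
  intro j hj
  exact hx' j.succ (Finset.mem_map.2 ⟨j, hj, rfl⟩)

theorem main (hExt : TExt) (hFin : TFin) (hFG1 : TFG1) (hPC1 : TPC1) (hPC2 : TPC2) (h8 : T8)
    (h9 : T9) (h10 : T10) : ∀ (n k : ℕ), 2 ≤ k → ∀ (Γ : Fin n → Type) [∀ i, Group (Γ i)]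
    (P : Type) [Group P] (f : ∀ i, P →* Γ i), (∀ x, (∀ i, f i x = 1) → x = 1) →
    (∀ i, Group.FG (Γ i)) → (∀ i, FPm k (Γ i)) → VS Γ f k → FPm k P := by
  intro n
  induction n with
  | zero =>
    intro k _ Γ _ P _ f hinj _ _ _
    have : Subsingleton P := ⟨fun x y => by
      rw [hinj x fun i => i.elim0, hinj y fun i => i.elim0]⟩
    exact hPC1 P (PC.fin P inferInstance) k
  | succ n ih =>
    intro k hk Γ _ P _ f hinj hfg hfp hvs
    let A : Subgroup P := (f 0).ker
    let B : Subgroup P := ⨅ j : Fin n, (f (Fin.succ j)).ker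
    have hAn : A.Normal := inferInstanceAs (f 0).ker.Normal
    have hBn : B.Normal := by
      refine ⟨fun x hx g => ?_⟩
      simp only [B, Subgroup.mem_iInf, MonoidHom.mem_ker] at hx ⊢
      intro j
      rw [map_mul, map_mul, hx j, mul_one, ← map_mul, mul_inv_cancel, map_one]
    have hBle : ∀ j : Fin n, B ≤ (f (Fin.succ j)).ker := fun j => iInf_le _ j
    have hAB : A ⊓ B = ⊥ := by
      rw [Subgroup.eq_bot_iff_forall]
      rintro x ⟨hx1, hx2⟩
      apply hinj
      intro i
      refine Fin.cases hx1 (fun j => ?_) i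
      exact hBle j hx2
    -- the quotient by `A`
    let φ : P ⧸ A →* Γ 0 := QuotientGroup.kerLift (f 0)
    have hφ : Function.Injective φ := QuotientGroup.kerLift_injective (f 0)
    have hφr : φ.range.FiniteIndex := by
      have h1 := hvs 0 ∅ (by simp) (by simp; omega)
      refine @Subgroup.finiteIndex_of_le _ _ _ _ h1 ?_
      rintro _ ⟨x, hx, rfl⟩
      exact ⟨QuotientGroup.mk x, rfl⟩
    have hG2 : FPm k (P ⧸ A) := hFin _ _ φ hφ hφr k (hfp 0)
    have hG2fg : Group.FG (P ⧸ A) := by
      have := hfg 0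
      have h1 : Group.FG φ.range := Subgroup.fg_of_index_ne_zero φ.range
      have e : φ.range ≃* P ⧸ A := (MonoidHom.ofInjective hφ).symm
      exact Group.fg_of_surjective (f := e.toMonoidHom) e.surjective
    have hker : ∀ g : P, QuotientGroup.mk' A g = 1 ↔ ∃ n, A.subtype n = g := by
      intro g
      rw [QuotientGroup.mk'_apply, QuotientGroup.eq_one_iff]
      exact ⟨fun h => ⟨⟨g, h⟩, rfl⟩, by rintro ⟨x, rfl⟩; exact x.2⟩
    have hinjA : ∀ x : A, (∀ j : Fin n, (f (Fin.succ j)).comp (f 0).ker.subtype x = 1) → x = 1 := by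
      intro x hx
      apply Subtype.ext
      apply hinj
      intro i
      refine Fin.cases x.2 (fun j => ?_) i
      exact hx j
    by_cases hkn : n + 1 ≤ k
    · have hA : FPm k A := by
        refine ih k hk (fun j => Γ (Fin.succ j)) A
          (fun j => (f (Fin.succ j)).comp (f 0).ker.subtype) hinjA (fun j => hfg _)
          (fun j => hfp _) (vs_ker f hvs ?_)
        intro i J hi _
        have h1 : (insert i J).card ≤ n := by
          simpa using Finset.card_le_univ (insert i J)
        rw [Finset.card_insert_of_notMem hi] at h1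
        omega
      exact hExt A P (P ⧸ A) A.subtype (QuotientGroup.mk' A) Subtype.val_injective
        (QuotientGroup.mk'_surjective A) hker k hA hG2
    · obtain ⟨k', rfl⟩ : ∃ k', k = k' + 1 := ⟨k - 1, by omega⟩
      have hA : FPm k' A := by
        by_cases h2 : k' = 1
        · subst h2
          have h3 := h9 n Γ P f hinj hfg hvs
          exact hFG1 A ((Group.fg_iff_subgroup_fg A).2 h3)
        · refine ih k' (by omega) (fun j => Γ (Fin.succ j)) A
            (fun j => (f (Fin.succ j)).comp (f 0).ker.subtype) hinjA (fun j => hfg _)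
            (fun j => fpx_mono _ _ _ (hfp _)) (vs_ker f hvs ?_)
          intro i J _ hJ
          omega
      have hT : FPm (k' + 1) (P ⧸ B) := by
        refine ih (k' + 1) hk (fun j => Γ (Fin.succ j)) (P ⧸ B)
          (fun j => QuotientGroup.lift B (f (Fin.succ j)) (hBle j)) ?_ (fun j => hfg _)
          (fun j => hfp _) (vs_quot f hvs B hBle)
        intro x
        induction x using QuotientGroup.induction_on with
        | H x =>
          intro hx
          rw [QuotientGroup.eq_one_iff]
          simp only [B, Subgroup.mem_iInf, MonoidHom.mem_ker]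
          intro j
          exact hx j
      have hQfg : Group.FG (P ⧸ (A ⊔ B)) := by
        have h1 : Function.Surjective (QuotientGroup.lift A (QuotientGroup.mk' (A ⊔ B)) (by
            intro x hx
            rw [MonoidHom.mem_ker, QuotientGroup.mk'_apply, QuotientGroup.eq_one_iff]
            exact Subgroup.mem_sup_left hx)) := by
          intro y
          obtain ⟨x, rfl⟩ := QuotientGroup.mk'_surjective _ y
          exact ⟨QuotientGroup.mk x, rfl⟩
        exact Group.fg_of_surjective h1
      have hQ : PC (P ⧸ (A ⊔ B)) inferInstance := by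
        refine h8 P n A (fun j => (f (Fin.succ j)).ker) hAn (fun j => inferInstance) ?_
          (P ⧸ (A ⊔ B)) (QuotientGroup.mk' (A ⊔ B)) (QuotientGroup.mk'_surjective _) ?_ hQfg
        · intro j
          have h1 := hvs 0 {Fin.succ j} (by
            simp only [Finset.mem_singleton]
            exact (Fin.succ_ne_zero j).symm) (by simp; omega)
          have h2 : (((⨅ i ∈ ({Fin.succ j} : Finset (Fin (n + 1))), (f i).ker).map (f 0)).comap
            (f 0)).FiniteIndex := ⟨by
            rw [Subgroup.index_comap]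
            exact (inferInstance : ((((⨅ i ∈ ({Fin.succ j} : Finset (Fin (n + 1))),
              (f i).ker).map (f 0))).subgroupOf (f 0).range).FiniteIndex).index_ne_zero⟩
          refine @Subgroup.finiteIndex_of_le _ _ _ _ h2 ?_
          intro x hx
          obtain ⟨y, hy, hyx⟩ := hx
          have hy' : y ∈ (f (Fin.succ j)).ker := (mem_iInf_ker f _ y).1 hy _ (by simp)
          have h3 : y⁻¹ * x ∈ A := by
            change f 0 _ = 1
            rw [map_mul, map_inv, hyx, inv_mul_cancel]
          have h4 : x = y * (y⁻¹ * x) := by group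
          rw [h4]
          exact Subgroup.mul_mem_sup hy' h3
        · intro x
          rw [QuotientGroup.mk'_apply, QuotientGroup.eq_one_iff, sup_comm]
      exact h10 P A B hAB k' hA hG2 hT (hPC1 _ hQ _) (hPC2 _ hQ) hG2fg

end Pool.Agent.H653R5
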