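import Pool.Agent.H653R5.Defs

set_option autoImplicit false

/-! Finitely generated nilpotent groups are poly-(cyclic or finite). -/

namespace Pool.Agent.H653R5

open Pool.Agent.H653R4

namespace NilAux

variable {G : Type} [Group G]

lemma closure_le_center (R : Set G) (hR : ∀ r ∈ R, r ∈ Subgroup.center G) :
    Subgroup.closure R ≤ Subgroup.center G := (Subgroup.closure_le _).mpr hR

lemma closure_normal (R : Set G) (hR : ∀ r ∈ R, r ∈ Subgroup.center G) :
    (Subgroup.closure R).Normal := by
  refine ⟨fun n hn g => ?_⟩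
  have h := Subgroup.mem_center_iff.mp (closure_le_center R hR hn) g
  rw [h, mul_inv_cancel_right]
  exact hn

lemma pc_central (R : Finset G) : (∀ r ∈ R, r ∈ Subgroup.center G) →
    PC (Subgroup.closure (R : Set G)) inferInstance := by
  classical
  induction R using Finset.induction_on with
  | empty =>
    intro _
    apply PC.fin
    rw [Finset.coe_empty, Subgroup.closure_empty]
    infer_instance
  | insert r R _ ih =>
    intro hR
    have hr : r ∈ Subgroup.center G := hR r (Finset.mem_insert_self r R)
    have hR' : ∀ x ∈ R, x ∈ Subgroup.center G := fun x hx => hR x (Finset.mem_insert_of_mem hx)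
    have ih' := ih hR'
    set N := Subgroup.closure (R : Set G) with hN
    set K := Subgroup.closure ((insert r R : Finset G) : Set G) with hK
    have hNK : N ≤ K := Subgroup.closure_mono (by
      intro x hx
      rw [Finset.mem_coe] at hx ⊢
      exact Finset.mem_insert_of_mem hx)
    have hNn : N.Normal := closure_normal _ (fun x hx => hR' x (Finset.mem_coe.mp hx))
    have hrK : r ∈ K := Subgroup.subset_closure (Finset.mem_coe.mpr (Finset.mem_insert_self r R))
    have hdec : ∀ k ∈ K, ∃ m : ℤ, ∃ n ∈ N, k = r ^ m * n := by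
      intro k hk
      induction hk using Subgroup.closure_induction with
      | mem x hx =>
        rw [Finset.mem_coe, Finset.mem_insert] at hx
        rcases hx with rfl | hx
        · exact ⟨1, 1, N.one_mem, by simp⟩
        · exact ⟨0, x, Subgroup.subset_closure (Finset.mem_coe.mpr hx), by simp⟩
      | one => exact ⟨0, 1, N.one_mem, by simp⟩
      | mul x y _ _ hx hy =>
        obtain ⟨m, n, hn, rfl⟩ := hx
        obtain ⟨m', n', hn', rfl⟩ := hy
        refine ⟨m + m', n * n', N.mul_mem hn hn', ?_⟩
        have h := Subgroup.mem_center_iff.mp ((Subgroup.center G).zpow_mem hr m') n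
        rw [zpow_add, mul_assoc, ← mul_assoc n, h]
        simp only [mul_assoc]
      | inv x _ hx =>
        obtain ⟨m, n, hn, rfl⟩ := hx
        refine ⟨-m, n⁻¹, N.inv_mem hn, ?_⟩
        have h := Subgroup.mem_center_iff.mp ((Subgroup.center G).zpow_mem hr (-m)) n⁻¹
        rw [mul_inv_rev, ← zpow_neg, h]
    have hn' : (N.subgroupOf K).Normal := hNn.subgroupOf K
    refine PC.ext N K (K ⧸ N.subgroupOf K) (Subgroup.inclusion hNK) (QuotientGroup.mk' _)
      (Subgroup.inclusion_injective hNK) (QuotientGroup.mk'_surjective _) ?_ ih' ?_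
    · intro g
      rw [← MonoidHom.mem_ker, QuotientGroup.ker_mk', Subgroup.mem_subgroupOf]
      constructor
      · intro h
        exact ⟨⟨g, h⟩, rfl⟩
      · rintro ⟨n, rfl⟩
        exact n.2
    · apply PC.cyc
      refine ⟨⟨QuotientGroup.mk' (N.subgroupOf K) ⟨r, hrK⟩, ?_⟩⟩
      intro x
      obtain ⟨k, rfl⟩ := QuotientGroup.mk'_surjective (N.subgroupOf K) x
      obtain ⟨m, n, hn, hk⟩ := hdec k k.2
      refine ⟨m, ?_⟩
      have e : k = (⟨r, hrK⟩ : K) ^ m * ⟨n, hNK hn⟩ := by
        apply Subtype.ext
        rw [hk]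
        simp
      have e2 : QuotientGroup.mk' (N.subgroupOf K) ⟨n, hNK hn⟩ = 1 := by
        rw [← MonoidHom.mem_ker, QuotientGroup.ker_mk', Subgroup.mem_subgroupOf]
        exact hn
      show (QuotientGroup.mk' (N.subgroupOf K) ⟨r, hrK⟩) ^ m = _
      rw [e, map_mul, e2, mul_one, map_zpow]

end NilAux

open NilAux in
/-- finitely generated nilpotent groups; the hypotheses are tasks proved elsewhere -/
theorem task_Nil (h2 : TPC2) (hRel : TaskRel) : TNil := by
  intro G _ hfg hnil
  revert hfg
  have := hnil
  refine Group.nilpotent_center_quotient_ind (P := fun (G : Type) (h : Group G) _ =>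
    Group.FG G → PC G h) G ?_ ?_
  · intro G _ _ _
    exact PC.fin G inferInstance
  · intro G _ _ ih hfg
    have hq : PC (G ⧸ Subgroup.center G) inferInstance := ih inferInstance
    obtain ⟨S, hS⟩ := hfg.out
    obtain ⟨R, hR1, hR2⟩ := hRel G (G ⧸ Subgroup.center G) (QuotientGroup.mk' _)
      (QuotientGroup.mk'_surjective _) ⟨S, hS⟩ (h2 _ hq)
    have hRc : ∀ r ∈ R, r ∈ Subgroup.center G := by
      intro r hr
      have := hR1 r hr
      rwa [← MonoidHom.mem_ker, QuotientGroup.ker_mk'] at this
    have hn := closure_normal (R : Set G) (fun r hr => hRc r (Finset.mem_coe.mp hr))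
    refine PC.ext (Subgroup.closure (R : Set G)) G (G ⧸ Subgroup.center G)
      (Subgroup.closure (R : Set G)).subtype (QuotientGroup.mk' _)
      (Subgroup.subtype_injective _) (QuotientGroup.mk'_surjective _) ?_ (pc_central R hRc) hq
    intro g
    constructor
    · intro h
      have h3 := hR2 g h
      have h4 : Subgroup.normalClosure (R : Set G) ≤ Subgroup.closure (R : Set G) :=
        Subgroup.normalClosure_le_normal Subgroup.subset_closure
      exact ⟨⟨g, h4 h3⟩, rfl⟩
    · rintro ⟨n, rfl⟩
      rw [← MonoidHom.mem_ker, QuotientGroup.ker_mk']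
      exact closure_le_center (R : Set G) (fun r hr => hRc r (Finset.mem_coe.mp hr)) n.2

end Pool.Agent.H653R5
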