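import Pool.Agent.H653R5.Defs

set_option autoImplicit false
set_option maxHeartbeats 4000000

namespace Pool.Agent.H653R5

open Pool.Agent.H653R4

theorem fg_abelian_PC : ∀ (k : ℕ) (G : Type) [h : Group G], (∀ a b : G, a * b = b * a) →
    (∃ S : Finset G, S.card ≤ k ∧ Subgroup.closure (S : Set G) = ⊤) → PC G h := by
  intro k
  induction k with
  | zero =>
    intro G _ _ hS
    obtain ⟨S, hS, hS'⟩ := hS
    have h1 : S = ∅ := Finset.card_eq_zero.1 (Nat.le_zero.1 hS)
    rw [h1, Finset.coe_empty, Subgroup.closure_empty] at hS'
    have : Subsingleton G := Subgroup.subsingleton_iff.1 (subsingleton_of_bot_eq_top hS')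
    exact PC.fin G inferInstance
  | succ k ih =>
    intro G _ hcomm hS
    classical
    obtain ⟨S, hS, hS'⟩ := hS
    by_cases hne : S = ∅
    · rw [hne, Finset.coe_empty, Subgroup.closure_empty] at hS'
      have : Subsingleton G := Subgroup.subsingleton_iff.1 (subsingleton_of_bot_eq_top hS')
      exact PC.fin G inferInstance
    · obtain ⟨a, ha⟩ := Finset.nonempty_iff_ne_empty.2 hne
      let A : Subgroup G := Subgroup.zpowers a
      have hAn : A.Normal := ⟨fun x hx g => by
        rw [hcomm g x, mul_assoc, mul_inv_cancel, mul_one]; exact hx⟩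
      have hA : PC A inferInstance := PC.cyc A (inferInstanceAs (IsCyclic (Subgroup.zpowers a)))
      have hQ : PC (G ⧸ A) inferInstance := by
        apply ih (G ⧸ A)
        · intro x y
          obtain ⟨x, rfl⟩ := QuotientGroup.mk'_surjective A x
          obtain ⟨y, rfl⟩ := QuotientGroup.mk'_surjective A y
          rw [← map_mul, ← map_mul, hcomm]
        · refine ⟨(S.erase a).image (QuotientGroup.mk' A), ?_, ?_⟩
          · refine Finset.card_image_le.trans ?_
            rw [Finset.card_erase_of_mem ha]
            omega
          · rw [eq_top_iff]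
            intro x _
            obtain ⟨x, rfl⟩ := QuotientGroup.mk'_surjective A x
            have hx : x ∈ Subgroup.closure (S : Set G) := by rw [hS']; trivial
            induction hx using Subgroup.closure_induction with
            | mem x hx =>
              by_cases hxa : x = a
              · have : QuotientGroup.mk' A x = 1 := by
                  rw [QuotientGroup.mk'_apply, QuotientGroup.eq_one_iff, hxa]
                  exact Subgroup.mem_zpowers a
                rw [this]
                exact one_mem _
              · apply Subgroup.subset_closure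
                rw [Finset.coe_image]
                exact ⟨x, Finset.mem_coe.2 (Finset.mem_erase.2 ⟨hxa, hx⟩), rfl⟩
            | one => rw [map_one]; exact one_mem _
            | mul x y _ _ hx hy => rw [map_mul]; exact mul_mem (hx trivial) (hy trivial)
            | inv x _ hx => rw [map_inv]; exact inv_mem (hx trivial)
      refine PC.ext A G (G ⧸ A) A.subtype (QuotientGroup.mk' A) Subtype.val_injective
        (QuotientGroup.mk'_surjective A) ?_ hA hQ
      intro g
      rw [QuotientGroup.mk'_apply, QuotientGroup.eq_one_iff]
      exact ⟨fun h => ⟨⟨g, h⟩, rfl⟩, by rintro ⟨x, rfl⟩; exact x.2⟩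

theorem task_NilB (h2 : TPC2) (hRel : TaskRel) : TNil := by
  intro G hG hfg hnil
  revert hfg
  refine Group.nilpotent_center_quotient_ind (P := fun G _ _ => Group.FG G → PC G inferInstance) G ?_ ?_
  · intro G _ _ _
    exact PC.fin G inferInstance
  · intro G _ _ ih hfg
    have hQfg : Group.FG (G ⧸ Subgroup.center G) :=
      Group.fg_of_surjective (f := QuotientGroup.mk' (Subgroup.center G))
        (QuotientGroup.mk'_surjective _)
    have hQ := ih hQfg
    obtain ⟨⟨S, hS⟩⟩ := hfg
    obtain ⟨R, hR1, hR2⟩ := hRel G (G ⧸ Subgroup.center G) (QuotientGroup.mk' _)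
      (QuotientGroup.mk'_surjective _) ⟨S, hS⟩ (h2 _ hQ)
    have hRc : ∀ r ∈ R, r ∈ Subgroup.center G := by
      intro r hr
      have := hR1 r hr
      rwa [QuotientGroup.mk'_apply, QuotientGroup.eq_one_iff] at this
    have hle : Subgroup.closure (R : Set G) ≤ Subgroup.center G :=
      (Subgroup.closure_le _).2 hRc
    have hn : (Subgroup.closure (R : Set G)).Normal := ⟨fun x hx g => by
      have h1 := Subgroup.mem_center_iff.1 (hle hx) g
      rw [h1, mul_assoc, mul_inv_cancel, mul_one]
      exact hx⟩
    have heq : Subgroup.center G = Subgroup.closure (R : Set G) := by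
      apply le_antisymm _ hle
      intro y hy
      have h1 := hR2 y (by rw [QuotientGroup.mk'_apply, QuotientGroup.eq_one_iff]; exact hy)
      exact Subgroup.normalClosure_le_normal Subgroup.subset_closure h1
    have hcfg : (Subgroup.center G).FG := ⟨R, heq.symm⟩
    have hcfg' : Group.FG (Subgroup.center G) := (Group.fg_iff_subgroup_fg _).2 hcfg
    obtain ⟨⟨S', hS'⟩⟩ := hcfg'
    have hC : PC (Subgroup.center G) inferInstance :=
      fg_abelian_PC S'.card _ (fun a b => Subtype.ext (Subgroup.mem_center_iff.1 b.2 (a : G))) ⟨S', le_rfl, hS'⟩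
    refine PC.ext (Subgroup.center G) G (G ⧸ Subgroup.center G) (Subgroup.subtype _)
      (QuotientGroup.mk' _) Subtype.val_injective (QuotientGroup.mk'_surjective _) ?_ hC hQ
    intro g
    rw [QuotientGroup.mk'_apply, QuotientGroup.eq_one_iff]
    exact ⟨fun h => ⟨⟨g, h⟩, rfl⟩, by rintro ⟨x, rfl⟩; exact x.2⟩

end Pool.Agent.H653R5
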