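import Pool.Agent.H653R5.Defs

set_option autoImplicit false
set_option maxHeartbeats 4000000

namespace Pool.Agent.H653R5
open Pool.Agent.H653R4

theorem fpx_noeth (S : Type) [Ring S] [IsNoetherianRing S] (k : ℕ) :
    ∀ (M : Type) [AddCommGroup M] [Module S M] [Module.Finite S M], FPx S k M := by
  induction k with
  | zero => intro M _ _ _; trivial
  | succ k ih =>
    intro M _ _ _
    obtain ⟨n, f, hf⟩ := Module.Finite.exists_fin' S M
    refine ⟨n, f, hf, ?_⟩
    exact ih (LinearMap.ker f)

theorem noeth_fin (G : Type) [Group G] [Finite G] : IsNoetherianRing (ZG G) := by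
  have : Module.Finite ℤ (ZG G) := by
    infer_instance
  exact isNoetherian_of_tower ℤ (inferInstance : IsNoetherian ℤ (ZG G))

theorem noeth_int : IsNoetherianRing (ZG (Multiplicative ℤ)) := by
  have : Algebra.FiniteType ℤ (MonoidAlgebra ℤ (Multiplicative ℤ)) := by
    infer_instance
  exact Algebra.FiniteType.isNoetherianRing ℤ (MonoidAlgebra ℤ (Multiplicative ℤ))

theorem noeth_cyc (G : Type) [Group G] (a : G) (ha : ∀ g : G, g ∈ Subgroup.zpowers a) :
    IsNoetherianRing (ZG G) := by
  have := noeth_int
  have hs : Function.Surjective (rm (zpowersHom G a)) := by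
    intro x
    induction x using MonoidAlgebra.induction_on with
    | of g =>
      obtain ⟨n, hn⟩ := Subgroup.mem_zpowers_iff.mp (ha g)
      refine ⟨MonoidAlgebra.of ℤ _ (Multiplicative.ofAdd n), ?_⟩
      unfold rm
      simp [hn]
    | add x y hx hy =>
      obtain ⟨u, rfl⟩ := hx
      obtain ⟨v, rfl⟩ := hy
      exact ⟨u + v, map_add _ _ _⟩
    | smul r x hx =>
      obtain ⟨u, rfl⟩ := hx
      refine ⟨r • u, ?_⟩
      rw [map_zsmul]
  exact isNoetherianRing_of_surjective _ _ (rm (zpowersHom G a)) hs

/-- poly-(cyclic or finite) groups are of type `FP_m` -/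
theorem task_PC1 (hExt : TExt) : TPC1 := by
  intro G h hPC
  induction hPC with
  | cyc G hc =>
    intro m
    obtain ⟨a, ha⟩ := hc.exists_generator
    have := noeth_cyc G a ha
    exact fpx_noeth (ZG G) (m + 1) (Tr G)
  | fin G hf =>
    intro m
    have := noeth_fin G
    exact fpx_noeth (ZG G) (m + 1) (Tr G)
  | ext N G H ι p hι hp hk _ _ ihN ihH =>
    exact fun m => hExt N G H ι p hι hp hk m (ihN m) (ihH m)

end Pool.Agent.H653R5
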