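import Pool.Agent.H653R5.Defs

set_option autoImplicit false
set_option maxHeartbeats 4000000

namespace Pool.Agent.H653R5

open Pool.Agent.H653R4

theorem noeth_fpx (S : Type) [Ring S] [IsNoetherianRing S] : ∀ (k : ℕ) (M : Type)
    [AddCommGroup M] [Module S M], Module.Finite S M → FPx S k M
  | 0, _, _, _ => fun _ => trivial
  | k + 1, M, _, _ => by
    intro h
    obtain ⟨n, f, hf⟩ := Module.Finite.exists_fin' S M
    exact ⟨n, f, hf, noeth_fpx S k _ inferInstance⟩

theorem noeth_cyc (G : Type) [Group G] (h : IsCyclic G) : IsNoetherianRing (ZG G) := by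
  let _ : CommGroup G := IsCyclic.commGroup
  have : Monoid.FG G := by
    have : Group.FG G := by
      obtain ⟨g, hg⟩ := h.exists_generator
      refine ⟨⟨{g}, ?_⟩⟩
      rw [eq_top_iff]
      intro x _
      rw [Finset.coe_singleton]
      exact Subgroup.mem_closure_singleton.2 (Subgroup.mem_zpowers_iff.1 (hg x))
    exact Group.fg_iff_monoid_fg.mp this
  have h1 : Algebra.FiniteType ℤ (MonoidAlgebra ℤ G) := MonoidAlgebra.finiteType_of_fg
  exact Algebra.FiniteType.isNoetherianRing ℤ (MonoidAlgebra ℤ G)

theorem noeth_fin (G : Type) [Group G] (h : Finite G) : IsNoetherianRing (ZG G) := by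
  have : Module.Finite ℤ (ZG G) := inferInstance
  exact IsNoetherianRing.of_finite ℤ (ZG G)

theorem task_PC1' (hExt : TExt) : TPC1 := by
  intro G hG h
  induction h with
  | cyc G h =>
    intro m
    have := noeth_cyc G h
    exact noeth_fpx _ _ _ inferInstance
  | fin G h =>
    intro m
    have := noeth_fin G h
    exact noeth_fpx _ _ _ inferInstance
  | ext N G H ι p h1 h2 h3 _ _ ih1 ih2 =>
    intro m
    exact hExt N G H ι p h1 h2 h3 m (ih1 m) (ih2 m)

end Pool.Agent.H653R5
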