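import Pool.Agent.H653R5.Defs
import Pool.Agent.H653R4.FPExt

set_option autoImplicit false

/-! Virtual surjections project, task PC2: poly-(cyclic or finite) groups are finitely presented -/

namespace Pool.Agent.H653R5

open Pool.Agent.H653R4

theorem fpres_cyclic (G : Type) [Group G] (h : IsCyclic G) : FPres G := by
  obtain ⟨g, hg⟩ := h.exists_generator
  have hF : ∀ x : FreeGroup (Fin 1), x ∈ Subgroup.zpowers (FreeGroup.of (0 : Fin 1)) := by
    intro x
    have h1 : Subgroup.closure (Set.range (FreeGroup.of : Fin 1 → FreeGroup (Fin 1))) = ⊤ :=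
      FreeGroup.closure_range_of (Fin 1)
    have h2 : Set.range (FreeGroup.of : Fin 1 → FreeGroup (Fin 1)) = {FreeGroup.of 0} := by
      ext y
      constructor
      · rintro ⟨i, rfl⟩
        rw [Subsingleton.elim i 0]
        rfl
      · intro hy
        exact ⟨0, hy.symm⟩
    rw [Subgroup.zpowers_eq_closure, ← h2, h1]
    trivial
  have hcyc : IsCyclic (FreeGroup (Fin 1)) := ⟨⟨FreeGroup.of 0, hF⟩⟩
  let f : FreeGroup (Fin 1) →* G := FreeGroup.lift (fun _ => g)
  obtain ⟨⟨x, hx⟩, hgen⟩ := (inferInstance : IsCyclic f.ker).exists_generator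
  refine ⟨1, f, {x}, ?_, ?_⟩
  · intro y
    obtain ⟨k, hk⟩ := hg y
    refine ⟨FreeGroup.of 0 ^ k, ?_⟩
    rw [map_zpow]
    simpa [f] using hk
  · rw [Finset.coe_singleton]
    apply le_antisymm
    · intro y hy
      obtain ⟨k, hk⟩ := hgen ⟨y, hy⟩
      have hk' : x ^ k = y := by
        have := congrArg Subtype.val hk
        simpa using this
      rw [← hk']
      exact Subgroup.zpow_mem _ (Subgroup.subset_normalClosure (Set.mem_singleton x)) k
    · apply Subgroup.normalClosure_le_normal
      intro y hy
      rw [Set.mem_singleton_iff.1 hy]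
      exact hx

theorem fpres_finite (G : Type) [Group G] (h : Finite G) : FPres G := by
  classical
  have := Fintype.ofFinite G
  let e : Fin (Fintype.card G) ≃ G := (Fintype.equivFin G).symm
  let f : FreeGroup (Fin (Fintype.card G)) →* G := FreeGroup.lift e
  let t : G → FreeGroup (Fin (Fintype.card G)) := fun g => FreeGroup.of (e.symm g)
  have hft : ∀ g, f (t g) = g := by
    intro g
    simp [f, t]
  let S : Finset (FreeGroup (Fin (Fintype.card G))) :=
    (Finset.univ : Finset (G × G)).image (fun p => t p.1 * t p.2 * (t (p.1 * p.2))⁻¹)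
  refine ⟨Fintype.card G, f, S, fun g => ⟨t g, hft g⟩, ?_⟩
  apply le_antisymm
  · let N := Subgroup.normalClosure (↑S : Set (FreeGroup (Fin (Fintype.card G))))
    let φ : FreeGroup (Fin (Fintype.card G)) →* FreeGroup (Fin (Fintype.card G)) ⧸ N :=
      QuotientGroup.mk' N
    have hmul : ∀ g h : G, φ (t (g * h)) = φ (t g) * φ (t h) := by
      intro g h
      have h1 : t g * t h * (t (g * h))⁻¹ ∈ N := by
        apply Subgroup.subset_normalClosure
        rw [Finset.mem_coe, Finset.mem_image]
        exact ⟨(g, h), Finset.mem_univ _, rfl⟩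
      have h2 : φ (t g * t h * (t (g * h))⁻¹) = 1 := (QuotientGroup.eq_one_iff _).2 h1
      rw [map_mul, map_inv, mul_inv_eq_one, map_mul] at h2
      exact h2.symm
    let s : G →* FreeGroup (Fin (Fintype.card G)) ⧸ N := MonoidHom.mk' (fun g => φ (t g)) hmul
    have hs : s.comp f = φ := by
      apply FreeGroup.ext_hom
      intro i
      show φ (t (f (FreeGroup.of i))) = φ (FreeGroup.of i)
      simp [f, t]
    intro x hx
    have h1 : φ x = 1 := by
      rw [← hs]
      show s (f x) = 1
      rw [MonoidHom.mem_ker.1 hx, map_one]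
    exact (QuotientGroup.eq_one_iff _).1 h1
  · apply Subgroup.normalClosure_le_normal
    intro y hy
    rw [Finset.mem_coe, Finset.mem_image] at hy
    obtain ⟨p, -, rfl⟩ := hy
    show _ ∈ f.ker
    rw [MonoidHom.mem_ker]
    simp only [map_mul, map_inv, hft]
    simp

theorem task_PC2 : TPC2 := by
  intro G h hPC
  induction hPC with
  | cyc G hc => exact fpres_cyclic G hc
  | fin G hc => exact fpres_finite G hc
  | ext N G H ι p hι hp hk _ _ ihN ihH => exact task_FPExt N G H ι p hι hp hk ihN ihH

end Pool.Agent.H653R5
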