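import Pool.Agent.H653R5.Defs

set_option autoImplicit false
set_option maxHeartbeats 4000000

/-! Task `PC3` of the project H653-VS (helper563). -/

namespace Pool.Agent.H653R5

open Pool.Agent.H653R4

theorem pc3_aux (G : Type) (h : Group G) (hPC : PC G h) :
    ∀ (H : Type) (h' : Group H) (ι : H →* G), Function.Injective ι → PC H h' := by
  induction hPC with
  | cyc G hc =>
    intro H h' ι hι
    have := hc
    exact PC.cyc H (isCyclic_of_injective ι hι)
  | fin G hf =>
    intro H h' ι hι
    have := hf
    exact PC.fin H (Finite.of_injective ι hι)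
  | ext N G H0 ι0 p0 hι0 hp0 hk _ _ ihN ihH =>
    intro H h' j hj
    have hker : ∀ x : (p0.comp j).ker, (j.comp (p0.comp j).ker.subtype) x ∈ ι0.range := by
      intro x
      have hx : p0 (j (x : H)) = 1 := x.2
      obtain ⟨n, hn⟩ := (hk _).mp hx
      exact ⟨n, hn⟩
    refine PC.ext (p0.comp j).ker H (p0.comp j).range (p0.comp j).ker.subtype
      (p0.comp j).rangeRestrict (Subtype.val_injective) (MonoidHom.rangeRestrict_surjective _)
      ?_ ?_ ?_
    · intro g
      constructor
      · intro hg
        have hg' : (p0.comp j) g = 1 := by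
          have := congrArg Subtype.val hg
          simpa using this
        exact ⟨⟨g, hg'⟩, rfl⟩
      · rintro ⟨n, rfl⟩
        apply Subtype.ext
        exact n.2
    · refine ihN _ _ ((MonoidHom.ofInjective hι0).symm.toMonoidHom.comp
        ((j.comp (p0.comp j).ker.subtype).codRestrict ι0.range hker)) ?_
      intro a b hab
      have h1 := (MonoidHom.ofInjective hι0).symm.injective hab
      have h2 : j (a : H) = j (b : H) := congrArg Subtype.val h1
      exact Subtype.ext (hj h2)
    · exact ihH _ _ (p0.comp j).range.subtype Subtype.val_injective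

theorem task_PC3 : TPC3 := fun G H h h' ι hι hPC => pc3_aux G h hPC H h' ι hι

end Pool.Agent.H653R5
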