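import Pool.Agent.H653R5.Defs
import Pool.Agent.H653R4.Core
import Pool.Agent.H653R4.Cmp
import Pool.Agent.H653R4.Sch
import Pool.Agent.H653R4.Extn
import Pool.Agent.H653R4.Restr
import Pool.Agent.H653R4.Step
import Pool.Agent.H653R4.EndAB
import Pool.Agent.H653R4.NStep
import Pool.Agent.H653R4.N0
import Pool.Agent.H653R4.IC
import Pool.Agent.H653R4.Ind
import Pool.Agent.H653R4.Ker
import Pool.Agent.H653R4.V
import Pool.Agent.H653R4.Start
import Pool.Agent.H653R4.TT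
import Pool.Agent.H653R4.Word
import Pool.Agent.H653R4.Sec
import Pool.Agent.H653R4.Rel

set_option autoImplicit false
set_option maxHeartbeats 4000000

namespace Pool.Agent.H653R5

open Pool.Agent.H653R4

theorem task_T10 : T10 := by
  intro P _ A B _ _ hAB k hA h2 h1 hQ hQp hFG
  classical
  -- the tasks
  have hE := Pool.Agent.H653R4.task_Equiv
  have hS := Pool.Agent.H653R4.task_Sch
  have hX := Pool.Agent.H653R4.task_Extn hE hS
  have hR := Pool.Agent.H653R4.task_Restr hE hS hX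
  have hTT := Pool.Agent.H653R4.task_TT
  have hIC := Pool.Agent.H653R4.task_IC
  have hK := Pool.Agent.H653R4.task_Ker
  have h0 := Pool.Agent.H653R4.task_N0 hE hS
  have hV := Pool.Agent.H653R4.task_V hE hS hIC hK h0
  let G₁ := P ⧸ B
  let G₂ := P ⧸ A
  let Q := P ⧸ (A ⊔ B)
  let f₁ : P →* G₁ := QuotientGroup.mk' B
  let f₂ : P →* G₂ := QuotientGroup.mk' A
  let π₁ : G₁ →* Q := QuotientGroup.map B (A ⊔ B) (MonoidHom.id P) (by
    intro x hx
    exact (le_sup_right : B ≤ A ⊔ B) hx)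
  let π₂ : G₂ →* Q := QuotientGroup.map A (A ⊔ B) (MonoidHom.id P) (by
    intro x hx
    exact (le_sup_left : A ≤ A ⊔ B) hx)
  let ιP : A →* P := A.subtype
  let ι₁ : A →* G₁ := f₁.comp A.subtype
  have hf1 : ∀ x : P, f₁ x = 1 ↔ x ∈ B := fun x => QuotientGroup.eq_one_iff x
  have hf2 : ∀ x : P, f₂ x = 1 ↔ x ∈ A := fun x => QuotientGroup.eq_one_iff x
  have hp1 : ∀ x : P, π₁ (f₁ x) = QuotientGroup.mk' (A ⊔ B) x := fun x => rfl
  have hp2 : ∀ x : P, π₂ (f₂ x) = QuotientGroup.mk' (A ⊔ B) x := fun x => rfl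
  have hc : ∀ x : P, π₁ (f₁ x) = π₂ (f₂ x) := fun x => rfl
  have s1 : Function.Surjective π₁ := by
    intro q
    obtain ⟨x, rfl⟩ := QuotientGroup.mk'_surjective (A ⊔ B) q
    exact ⟨f₁ x, rfl⟩
  have s2 : Function.Surjective π₂ := by
    intro q
    obtain ⟨x, rfl⟩ := QuotientGroup.mk'_surjective (A ⊔ B) q
    exact ⟨f₂ x, rfl⟩
  have surj1 : Function.Surjective f₁ := QuotientGroup.mk'_surjective B
  have surjP : Function.Surjective f₂ := QuotientGroup.mk'_surjective A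
  have hex : ∀ a b, π₁ a = π₂ b → ∃ x : P, f₁ x = a ∧ f₂ x = b := by
    intro a b h
    obtain ⟨x, rfl⟩ := surj1 a
    obtain ⟨y, rfl⟩ := surjP b
    rw [hp1, hp2] at h
    have h' : x⁻¹ * y ∈ A ⊔ B := (QuotientGroup.eq (s := A ⊔ B)).1 h
    rw [sup_comm] at h'
    have h'' : x⁻¹ * y ∈ ((B ⊔ A : Subgroup P) : Set P) := h'
    rw [Subgroup.mul_normal B A] at h''
    obtain ⟨u, hu, v, hv, huv⟩ := Set.mem_mul.1 h''
    refine ⟨x * u, ?_, ?_⟩
    · rw [map_mul, (hf1 u).2 hu, mul_one]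
    · have : y = x * u * v := by
        rw [mul_assoc, huv]; group
      rw [this, map_mul f₂ (x * u) v, (hf2 v).2 hv, mul_one]
  have huq : ∀ x : P, f₁ x = 1 → f₂ x = 1 → x = 1 := by
    intro x h h'
    have : x ∈ A ⊓ B := ⟨(hf2 x).1 h', (hf1 x).1 h⟩
    rw [hAB] at this
    exact Subgroup.mem_bot.1 this
  have hi : ∀ x, f₁ (ιP x) = ι₁ x := fun x => rfl
  have kerP : ∀ g : P, f₂ g = 1 ↔ ∃ x, ιP x = g := by
    intro g
    rw [hf2]
    constructor
    · intro h
      exact ⟨⟨g, h⟩, rfl⟩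
    · rintro ⟨x, rfl⟩
      exact x.2
  have injP : Function.Injective ιP := Subtype.val_injective
  have inj1 : Function.Injective ι₁ := by
    rw [injective_iff_map_eq_one]
    intro x hx
    apply Subtype.ext
    exact huq (x : P) hx ((hf2 _).2 x.2)
  have ker1 : ∀ g : G₁, π₁ g = 1 ↔ ∃ x, ι₁ x = g := by
    intro g
    constructor
    · intro h
      obtain ⟨x, hx1, hx2⟩ := hex g 1 (by rw [h, map_one])
      exact ⟨⟨x, (hf2 x).1 hx2⟩, hx1⟩
    · rintro ⟨x, rfl⟩
      show π₁ (f₁ (x : P)) = 1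
      rw [hc, (hf2 _).2 x.2, map_one]
  -- generators
  have hfg : Group.FG G₂ := hFG
  have hmfg : Monoid.FG G₂ := Group.fg_iff_monoid_fg.mp hfg
  obtain ⟨S, hS'⟩ := (Monoid.fg_def.mp hmfg)
  let J := {x // x ∈ S}
  have hchoose : ∀ j : J, ∃ x : P, f₂ x = j := fun j => surjP j
  choose γ hγ using hchoose
  have hrange : Set.range (fun j : J => f₂ (γ j)) = (S : Set G₂) := by
    ext x
    constructor
    · rintro ⟨j, rfl⟩
      simp only [hγ]
      exact j.2
    · intro hx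
      exact ⟨⟨x, hx⟩, hγ _⟩
  have hgen2 : Submonoid.closure (Set.range fun j : J => f₂ (γ j)) = ⊤ := by rw [hrange, hS']
  have hgen1 : Submonoid.closure (Set.range fun j : J => π₁ (f₁ (γ j))) = ⊤ := by
    have : (Set.range fun j : J => π₁ (f₁ (γ j))) = π₂ '' (Set.range fun j : J => f₂ (γ j)) := by
      ext x
      simp only [Set.mem_range, Set.mem_image, hc]
      constructor
      · rintro ⟨j, rfl⟩
        exact ⟨_, ⟨j, rfl⟩, rfl⟩
      · rintro ⟨_, ⟨j, rfl⟩, rfl⟩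
        exact ⟨j, rfl⟩
    rw [this, ← MonoidHom.map_mclosure, hgen2]
    rw [← MonoidHom.mrange_eq_map]
    exact MonoidHom.mrange_eq_top_of_surjective _ s2
  let α : J → A →* A := fun j => (MulAut.conjNormal (γ j)).toMonoidHom
  have hαP : ∀ j x, ιP (α j x) = γ j * ιP x * (γ j)⁻¹ := fun j x => by
    exact MulAut.conjNormal_apply _ _
  have hα : ∀ j x, ι₁ (α j x) = f₁ (γ j) * ι₁ x * (f₁ (γ j))⁻¹ := fun j x => by
    rw [← hi, hαP, map_mul, map_mul, map_inv, hi]
  have g1 : GD α ι₁ π₁ (fun j => f₁ (γ j)) :=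
    { inj := inj1
      surj := s1
      ker := ker1
      conj := hα
      gen := hgen1 }
  have g2 : GD α ιP f₂ γ :=
    { inj := injP
      surj := surjP
      ker := kerP
      conj := hαP
      gen := hgen2 }
  -- relators
  obtain ⟨R, hR1, hR2⟩ := Pool.Agent.H653R4.task_Rel G₂ Q π₂ s2 (by
    obtain ⟨T, hT⟩ := hfg
    exact ⟨T, hT⟩) hQp
  have hword : ∀ y : G₂, ∃ w : List J, f₂ ((w.map γ).prod) = y := by
    intro y
    have hy : y ∈ Submonoid.closure (Set.range fun j : J => f₂ (γ j)) := by rw [hgen2]; trivial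
    induction hy using Submonoid.closure_induction with
    | mem x hx =>
      obtain ⟨j, rfl⟩ := hx
      exact ⟨[j], by simp⟩
    | one => exact ⟨[], by simp⟩
    | mul x y _ _ hx hy =>
      obtain ⟨w, hw⟩ := hx
      obtain ⟨w', hw'⟩ := hy
      exact ⟨w ++ w', by rw [List.map_append, List.prod_append, map_mul, hw, hw']⟩
  choose W hW using hword
  have hWn' : ∀ y : G₂, ∃ x : A, π₂ y = 1 → f₁ (((W y).map γ).prod) = ι₁ x := by
    intro y
    by_cases h : π₂ y = 1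
    · have h3 : π₁ (f₁ (((W y).map γ).prod)) = 1 := by rw [hc, hW, h]
      obtain ⟨x, hx⟩ := (ker1 _).1 h3
      exact ⟨x, fun _ => hx.symm⟩
    · exact ⟨1, fun h' => absurd h' h⟩
  choose ν hν using hWn'
  let Ω : Set (List J × A) := (fun y => (W y, ν y)) '' (R : Set G₂)
  have hfin : Ω.Finite := R.finite_toSet.image _
  have hw : ∀ w ∈ Ω, f₁ ((w.1.map γ).prod) = ι₁ w.2 := by
    rintro _ ⟨y, hy, rfl⟩
    exact hν y (hR1 y hy)
  have hr : ∀ y, π₂ y = 1 → y ∈ Subgroup.normalClosure {z | ∃ w ∈ Ω, z = f₂ ((w.1.map γ).prod)} := by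
    intro y hy
    refine Subgroup.normalClosure_mono ?_ (hR2 y hy)
    intro z hz
    exact ⟨(W z, ν z), ⟨z, hz, rfl⟩, (hW z).symm⟩
  have haw : ∀ w ∈ Ω, aw α w.1 = (MulAut.conj w.2).toMonoidHom := by
    intro w hwΩ
    ext x
    have e1 := aw_spec α ι₁ (fun j => f₁ (γ j)) hα w.1 x
    have e2 : ((w.1.map fun j => f₁ (γ j)).prod) = ι₁ w.2 := by
      rw [← hw w hwΩ, map_list_prod, List.map_map]
      rfl
    rw [e2] at e1
    have e3 : aw α w.1 x = w.2 * x * w.2⁻¹ := by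
      apply inj1
      rw [e1, map_mul, map_mul, map_inv]
    exact congrArg Subtype.val e3
  exact core h0 Pool.Agent.H653R4.task_NStep
    (Pool.Agent.H653R4.task_Ind hIC hTT)
    (Pool.Agent.H653R4.task_Start hE hS hX hR hK hV)
    (Pool.Agent.H653R4.task_Step hS)
    Pool.Agent.H653R4.task_EndA Pool.Agent.H653R4.task_EndB
    (Pool.Agent.H653R4.task_Cmp hTT (Pool.Agent.H653R4.task_Word hTT) Pool.Agent.H653R4.task_Sec)
    π₁ π₂ f₁ f₂ ι₁ ιP α γ Ω hc hex huq s2 g1 g2 hi hw hr hfin haw k hA h1 h2 hQ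

end Pool.Agent.H653R5
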