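import Pool.Agent.H653R5.Defs

set_option autoImplicit false

namespace Pool.Agent.H653R5

open Pool.Agent.H653R4

theorem task_T12 : T12 := by
  classical
  intro n k _ hkn Γ _ P h i J' hi hJ'
  have hc : (insert i J').card ≤ k := by
    rw [Finset.card_insert_of_notMem hi]
    exact hJ'
  obtain ⟨J, hJ, hJc⟩ := Finset.exists_superset_card_eq hc (by simpa using hkn)
  have hiJ : i ∈ J := hJ (Finset.mem_insert_self _ _)
  have hH : (P.map (MonoidHom.pi (fun j : ↥J => Pi.evalMonoidHom Γ (j : Fin n)))).FiniteIndex :=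
    ⟨h J hJc⟩
  let φ : Γ i →* (∀ j : ↥J, Γ (j : Fin n)) :=
    MonoidHom.mulSingle (fun j : ↥J => Γ (j : Fin n)) ⟨i, hiJ⟩
  have hle : (P.map (MonoidHom.pi (fun j : ↥J => Pi.evalMonoidHom Γ (j : Fin n)))).comap φ ≤
      (⨅ j ∈ J', ((Pi.evalMonoidHom Γ j).comp P.subtype).ker).map
        ((Pi.evalMonoidHom Γ i).comp P.subtype) := by
    intro g hg
    rw [Subgroup.mem_comap, Subgroup.mem_map] at hg
    obtain ⟨p, hp, hpg⟩ := hg
    refine ⟨⟨p, hp⟩, ?_, ?_⟩
    · simp only [SetLike.mem_coe, Subgroup.mem_iInf]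
      intro j hj
      have hjJ : j ∈ J := hJ (Finset.mem_insert_of_mem hj)
      have h1 := congrFun hpg ⟨j, hjJ⟩
      have h2 : φ g ⟨j, hjJ⟩ = 1 := by
        show Pi.mulSingle (M := fun j : ↥J => Γ (j : Fin n)) ⟨i, hiJ⟩ g ⟨j, hjJ⟩ = 1
        apply Pi.mulSingle_eq_of_ne
        intro h3
        have h4 : j = i := congrArg Subtype.val h3
        exact hi (h4 ▸ hj)
      rw [MonoidHom.mem_ker]
      rw [h2] at h1
      exact h1
    · have h1 := congrFun hpg ⟨i, hiJ⟩
      have h2 : φ g ⟨i, hiJ⟩ = g :=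
        Pi.mulSingle_eq_same (M := fun j : ↥J => Γ (j : Fin n)) ⟨i, hiJ⟩ g
      rw [h2] at h1
      exact h1
  have hfi : ((P.map (MonoidHom.pi (fun j : ↥J => Pi.evalMonoidHom Γ (j : Fin n)))).comap
      φ).FiniteIndex := by
    refine ⟨?_⟩
    rw [Subgroup.index_comap]
    exact (inferInstance : ((P.map (MonoidHom.pi (fun j : ↥J =>
      Pi.evalMonoidHom Γ (j : Fin n)))).subgroupOf φ.range).FiniteIndex).index_ne_zero
  exact Subgroup.finiteIndex_of_le hle

end Pool.Agent.H653R5
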