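import Pool.Agent.H653R5.Defs

set_option autoImplicit false
set_option maxHeartbeats 4000000

namespace Pool.Agent.H653R5

open Pool.Agent.H653R4

theorem task_T12' : T12 := by
  intro n k hk hkn Γ _ P hP i J hi hJ
  classical
  obtain ⟨J', hJJ', hc⟩ := Finset.exists_superset_card_eq (s := insert i J) (n := k) (by
    rw [Finset.card_insert_of_notMem hi]; exact hJ) (by simpa using hkn)
  have h1 := hP J' hc
  set M := P.map (MonoidHom.pi fun j : ↥J' => Pi.evalMonoidHom Γ (j : Fin n)) with hM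
  have hM' : M.FiniteIndex := ⟨h1⟩
  have hiJ : i ∈ J' := hJJ' (Finset.mem_insert_self _ _)
  let s : Γ i →* (∀ j : ↥J', Γ (j : Fin n)) :=
    MonoidHom.mulSingle (fun j : ↥J' => Γ (j : Fin n)) ⟨i, hiJ⟩
  have h2 : (M.comap s).FiniteIndex := ⟨by
    rw [Subgroup.index_comap]
    exact (inferInstance : (M.subgroupOf s.range).FiniteIndex).index_ne_zero⟩
  refine @Subgroup.finiteIndex_of_le _ _ _ _ h2 ?_
  intro x hx
  obtain ⟨p, hp, hpx⟩ := hx
  have h3 : ∀ j : ↥J', p (j : Fin n) = s x j := fun j => congrFun hpx j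
  refine ⟨⟨p, hp⟩, ?_, ?_⟩
  · simp only [SetLike.mem_coe, Subgroup.mem_iInf, MonoidHom.mem_ker]
    intro j hj
    have hj' : j ∈ J' := hJJ' (Finset.mem_insert_of_mem hj)
    have h4 := h3 ⟨j, hj'⟩
    change p j = 1
    rw [h4]
    have hne : (⟨j, hj'⟩ : ↥J') ≠ ⟨i, hiJ⟩ := by
      intro h
      have h5 : j = i := Subtype.ext_iff.1 h
      exact hi (h5 ▸ hj)
    exact Pi.mulSingle_eq_of_ne (M := fun j : ↥J' => Γ (j : Fin n)) hne x
  · have h4 := h3 ⟨i, hiJ⟩
    change p i = x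
    rw [h4]
    exact Pi.mulSingle_eq_same (M := fun j : ↥J' => Γ (j : Fin n)) ⟨i, hiJ⟩ x

end Pool.Agent.H653R5
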