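import Pool.Agent.H653R5.Defs

set_option autoImplicit false
set_option maxHeartbeats 4000000

/-! Task T8: the commutator argument -/

namespace Pool.Agent.H653R5

open Pool.Agent.H653R4

theorem T8_comm {G : Type} [Group G] (B K C K' : Subgroup G) [B.Normal] [K.Normal] [C.Normal]
    (hK' : K ⊓ C ≤ K') {x m : G} (hx : x ∈ K ⊔ B) (hm : m ∈ C ⊔ B) :
    x * m * x⁻¹ * m⁻¹ ∈ K' ⊔ B := by
  have hx' : x ∈ ((K ⊔ B : Subgroup G) : Set G) := hx
  have hm' : m ∈ ((C ⊔ B : Subgroup G) : Set G) := hm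
  rw [Subgroup.mul_normal] at hx' hm'
  obtain ⟨k, hk, b, hb, rfl⟩ := Set.mem_mul.1 hx'
  obtain ⟨c, hc, b', hb', rfl⟩ := Set.mem_mul.1 hm'
  have hk1 : k ∈ K := hk
  have hc1 : c ∈ C := hc
  have h1 : k * c * k⁻¹ * c⁻¹ ∈ K := by
    have h : k * (c * k⁻¹ * c⁻¹) ∈ K :=
      K.mul_mem hk1 (Subgroup.Normal.conj_mem inferInstance _ (K.inv_mem hk1) c)
    simpa [mul_assoc] using h
  have h2 : k * c * k⁻¹ * c⁻¹ ∈ C :=
    C.mul_mem (Subgroup.Normal.conj_mem inferInstance _ hc1 k) (C.inv_mem hc1)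
  have h3 : k * c * k⁻¹ * c⁻¹ ∈ K' := hK' ⟨h1, h2⟩
  have h4 : ((k * c * k⁻¹ * c⁻¹ : G) : G ⧸ B) =
      ((k * b * (c * b') * (k * b)⁻¹ * (c * b')⁻¹ : G) : G ⧸ B) := by
    have e1 : ((b : G) : G ⧸ B) = 1 := (QuotientGroup.eq_one_iff b).2 hb
    have e2 : ((b' : G) : G ⧸ B) = 1 := (QuotientGroup.eq_one_iff b').2 hb'
    simp only [QuotientGroup.mk_mul, QuotientGroup.mk_inv, e1, e2, mul_one]
  have h5 := QuotientGroup.eq.1 h4
  have h6 := Subgroup.mul_mem_sup h3 h5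
  rwa [mul_inv_cancel_left] at h6

theorem task_T8 (hVN : TVN) : T8 := by
  intro G _ n B C hB hC hfin Q _ q hq hker hFG
  have hfi : (⨅ j, (C j ⊔ B)).FiniteIndex := Subgroup.finiteIndex_iInf hfin
  set M : Subgroup G := ⨅ j, (C j ⊔ B) with hM
  let K : ℕ → Subgroup G := fun i => ⨅ j : Fin n, ⨅ (_ : (j : ℕ) < i), C j
  have hKn : ∀ i, (K i).Normal := fun i =>
    Subgroup.normal_iInf_normal fun j => Subgroup.normal_iInf_normal fun _ => hC j
  have hmemK : ∀ i (x : G), x ∈ K i ↔ ∀ j : Fin n, (j : ℕ) < i → x ∈ C j := by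
    intro i x
    simp only [K, Subgroup.mem_iInf]
  have hK0 : K 0 = ⊤ := by
    rw [eq_top_iff]
    intro x _
    rw [hmemK]
    intro j hj
    exact absurd hj (Nat.not_lt_zero _)
  have hKN : ∀ x ∈ K n ⊔ B, q x = 1 := by
    intro x hx
    rw [hker]
    refine sup_le_sup_right ?_ B hx
    intro y hy
    rw [Subgroup.mem_iInf]
    exact fun j => (hmemK n y).1 hy j j.2
  let D : ℕ → Subgroup G := fun i => (K i ⊔ B) ⊓ M
  have hstep : ∀ i (y m : G), y ∈ D i → m ∈ M → y * m * y⁻¹ * m⁻¹ ∈ D (i + 1) := by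
    intro i y m hy hm
    refine ⟨?_, M.mul_mem (M.mul_mem (M.mul_mem hy.2 hm) (M.inv_mem hy.2)) (M.inv_mem hm)⟩
    by_cases hi : i < n
    · haveI := hKn i
      haveI := hC ⟨i, hi⟩
      refine T8_comm B (K i) (C ⟨i, hi⟩) (K (i + 1)) ?_ hy.1 ?_
      · rintro z ⟨hz1, hz2⟩
        rw [hmemK]
        intro j hj
        rcases Nat.lt_succ_iff_lt_or_eq.1 hj with h | h
        · exact (hmemK i z).1 hz1 j h
        · have : j = ⟨i, hi⟩ := Fin.ext h
          rw [this]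
          exact hz2
      · exact (Subgroup.mem_iInf.1 hm) ⟨i, hi⟩
    · haveI := hKn i
      have hle : K i ⊔ B ≤ K (i + 1) ⊔ B := by
        refine sup_le_sup_right ?_ B
        intro z hz
        rw [hmemK]
        intro j _
        exact (hmemK i z).1 hz j (lt_of_lt_of_le j.2 (not_lt.1 hi))
      apply hle
      have h : y * (m * y⁻¹ * m⁻¹) ∈ K i ⊔ B :=
        Subgroup.mul_mem _ hy.1
          (Subgroup.Normal.conj_mem inferInstance _ (Subgroup.inv_mem _ hy.1) m)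
      simpa [mul_assoc] using h
  refine hVN Q hFG ⟨M.map q, ⟨?_⟩, ?_⟩
  · intro h0
    have hdvd := Subgroup.index_map_dvd M hq
    rw [h0] at hdvd
    exact hfi.index_ne_zero (zero_dvd_iff.1 hdvd)
  · rw [nilpotent_iff_finite_descending_central_series]
    refine ⟨n, fun i => ((D i).map q).subgroupOf (M.map q), ⟨?_, ?_⟩, ?_⟩
    · have : D 0 = M := by
        simp only [D, hK0, top_sup_eq, top_inf_eq]
      show ((D 0).map q).subgroupOf (M.map q) = ⊤
      rw [this, Subgroup.subgroupOf_self]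
    · intro x i hx g
      rw [Subgroup.mem_subgroupOf] at hx ⊢
      obtain ⟨y, hy, hyx⟩ := hx
      obtain ⟨m, hm, hmg⟩ := g.2
      refine ⟨y * m * y⁻¹ * m⁻¹, hstep i y m hy hm, ?_⟩
      rw [commutatorElement_def]
      simp only [map_mul, map_inv, hyx, hmg, Subgroup.coe_mul, Subgroup.coe_inv]
    · rw [eq_bot_iff]
      intro x hx
      rw [Subgroup.mem_subgroupOf] at hx
      obtain ⟨y, hy, hyx⟩ := hx
      rw [Subgroup.mem_bot]
      apply Subtype.ext
      rw [← hyx, hKN y hy.1]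
      rfl

end Pool.Agent.H653R5
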