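import Pool.Agent.H653R5.Defs
import Pool.Agent.H653R4.Rel

set_option autoImplicit false
set_option maxHeartbeats 4000000

/-! Virtual surjections project: task T9 -/

namespace Pool.Agent.H653R5

open Pool.Agent.H653R4
open scoped Pointwise

theorem t9_factor {A B C : Type} [Group A] [Group B] [Group C] (φ : A →* B)
    (hφ : Function.Surjective φ) (ψ : A →* C) (h : ∀ a, φ a = 1 → ψ a = 1) :
    ∃ g : B →* C, ∀ a, g (φ a) = ψ a := by
  have hker : φ.ker ≤ ψ.ker := fun a ha => h a ha
  refine ⟨φ.liftOfSurjective hφ ⟨ψ, hker⟩, fun a => ?_⟩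
  exact φ.liftOfRightInverse_comp_apply _ (Function.rightInverse_surjInv hφ) ⟨ψ, hker⟩ a

theorem t9_fpres_fg {G : Type} [Group G] (h : FPres G) : Group.FG G := by
  obtain ⟨r, f, S, hf, -⟩ := h
  exact Group.fg_of_surjective hf

/-- products of poly-(cyclic or finite) groups -/
theorem t9_prod : ∀ (n : ℕ) (Q : Fin n → Type) [h : ∀ i, Group (Q i)],
    (∀ i, PC (Q i) (h i)) → PC (∀ i, Q i) inferInstance := by
  intro n
  induction n with
  | zero =>
    intro Q h hQ
    exact PC.fin _ inferInstance
  | succ n ih =>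
    intro Q h hQ
    have h2 := ih (fun i : Fin n => Q i.succ) (fun i => hQ i.succ)
    refine PC.ext (Q 0) (∀ i, Q i) (∀ i : Fin n, Q i.succ) (MonoidHom.mulSingle Q 0)
      (MonoidHom.pi fun i : Fin n => Pi.evalMonoidHom Q i.succ) ?_ ?_ ?_ (hQ 0) h2
    · exact Pi.mulSingle_injective 0
    · intro y
      refine ⟨Fin.cons 1 y, ?_⟩
      funext i
      simp
    · intro g
      constructor
      · intro hg
        refine ⟨g 0, ?_⟩
        funext i
        refine Fin.cases ?_ (fun j => ?_) i
        · simp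
        · have := congrFun hg j
          simp only [MonoidHom.pi_apply, Pi.evalMonoidHom_apply, Pi.one_apply] at this
          rw [this]
          simp
      · rintro ⟨x, rfl⟩
        funext i
        simp

/-- the abstract statement -/
theorem t9_core {A : Type} [Group A] (n : ℕ) (G Q : Fin n → Type) [∀ i, Group (G i)]
    [∀ i, Group (Q i)] (φ : ∀ i, A →* G i) (q : ∀ i, A →* Q i)
    (hinj : ∀ a, (∀ i, φ i a = 1) → a = 1) (hfg : ∀ i, Group.FG (φ i).range)
    (hker : ∀ i a, φ i a = 1 → q i a = 1) (hQ : ∀ i, FPres (q i).range)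
    (hK : ∀ i a, q i a = 1 → ∃ k, (∀ j, j ≠ i → φ j k = 1) ∧ φ i k = φ i a)
    (hprod : Group.FG (MonoidHom.pi q).range) : Group.FG A := by
  classical
  -- the induced maps
  have hπ : ∀ i, ∃ π : (φ i).range →* (q i).range, Function.Surjective π ∧
      ∀ a, ((π ((φ i).rangeRestrict a) : (q i).range) : Q i) = q i a := by
    intro i
    obtain ⟨g, hg⟩ := t9_factor (φ i).rangeRestrict (φ i).rangeRestrict_surjective
      (q i).rangeRestrict (fun a ha => by
        have h1 : φ i a = 1 := congrArg Subtype.val ha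
        exact Subtype.ext (hker i a h1))
    refine ⟨g, ?_, fun a => by rw [hg]; rfl⟩
    intro y
    obtain ⟨a, ha⟩ := (q i).rangeRestrict_surjective y
    exact ⟨(φ i).rangeRestrict a, by rw [hg, ha]⟩
  choose π hπs hπa using hπ
  -- relators
  have hR : ∀ i, ∃ R : Finset (φ i).range, (∀ r ∈ R, π i r = 1) ∧
      ∀ y, π i y = 1 → y ∈ Subgroup.normalClosure (R : Set (φ i).range) := by
    intro i
    have := (Group.fg_def.mp (hfg i))
    exact task_Rel _ _ (π i) (hπs i) (by obtain ⟨s, hs⟩ := this; exact ⟨s, hs⟩) (hQ i)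
  choose R hR1 hR2 using hR
  -- lifts of relators
  have hg : ∀ i (r : (φ i).range), ∃ k : A, π i r = 1 →
      (∀ j, j ≠ i → φ j k = 1) ∧ (φ i).rangeRestrict k = r := by
    intro i r
    by_cases h : π i r = 1
    · obtain ⟨a, ha⟩ := (φ i).rangeRestrict_surjective r
      have h1 : q i a = 1 := by
        rw [← hπa i a, ha, h]
        rfl
      obtain ⟨k, hk1, hk2⟩ := hK i a h1
      refine ⟨k, fun _ => ⟨hk1, ?_⟩⟩
      rw [← ha]
      exact Subtype.ext hk2
    · exact ⟨1, fun h' => absurd h' h⟩
  choose g hg1 using hg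
  -- lifts of generators
  have hT : ∀ i, ∃ T : Finset (φ i).range, Subgroup.closure (T : Set (φ i).range) = ⊤ :=
    fun i => by
      obtain ⟨s, hs⟩ := Group.fg_def.mp (hfg i)
      exact ⟨s, hs⟩
  choose T hT1 using hT
  obtain ⟨Z, hZ⟩ : ∃ Z : Finset (MonoidHom.pi q).range,
      Subgroup.closure (Z : Set (MonoidHom.pi q).range) = ⊤ := by
    obtain ⟨s, hs⟩ := Group.fg_def.mp hprod
    exact ⟨s, hs⟩
  choose s hs using fun i => (φ i).rangeRestrict_surjective
  choose z hz using (MonoidHom.pi q).rangeRestrict_surjective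
  set X : Finset A := (Finset.univ.biUnion fun i => (R i).image (g i)) ∪
    (Finset.univ.biUnion fun i => (T i).image (s i)) ∪ Z.image z with hX
  set D : Subgroup A := Subgroup.closure (X : Set A) with hD
  have hXD : ∀ x ∈ X, x ∈ D := fun x hx => Subgroup.subset_closure hx
  have hgD : ∀ i, ∀ r ∈ R i, g i r ∈ D := fun i r hr => hXD _ (by
    rw [hX, Finset.mem_union, Finset.mem_union]
    exact Or.inl (Or.inl (Finset.mem_biUnion.mpr ⟨i, Finset.mem_univ i,
      Finset.mem_image_of_mem _ hr⟩)))
  have hsD : ∀ i, ∀ r ∈ T i, s i r ∈ D := fun i r hr => hXD _ (by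
    rw [hX, Finset.mem_union, Finset.mem_union]
    exact Or.inl (Or.inr (Finset.mem_biUnion.mpr ⟨i, Finset.mem_univ i,
      Finset.mem_image_of_mem _ hr⟩)))
  have hzD : ∀ r ∈ Z, z r ∈ D := fun r hr => hXD _ (by
    rw [hX, Finset.mem_union]
    exact Or.inr (Finset.mem_image_of_mem _ hr))
  -- D surjects on all the ranges
  have hDφ : ∀ i (y : (φ i).range), ∃ d ∈ D, (φ i).rangeRestrict d = y := by
    intro i y
    have h1 : Subgroup.closure (T i : Set (φ i).range) ≤ D.map (φ i).rangeRestrict := by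
      rw [Subgroup.closure_le]
      intro t ht
      exact ⟨s i t, hsD i t ht, hs i t⟩
    rw [hT1 i] at h1
    obtain ⟨d, hd, h2⟩ := h1 (Subgroup.mem_top y)
    exact ⟨d, hd, h2⟩
  have hDq : ∀ y : (MonoidHom.pi q).range, ∃ d ∈ D, (MonoidHom.pi q).rangeRestrict d = y := by
    intro y
    have h1 : Subgroup.closure (Z : Set (MonoidHom.pi q).range) ≤
        D.map (MonoidHom.pi q).rangeRestrict := by
      rw [Subgroup.closure_le]
      intro t ht
      exact ⟨z t, hzD t ht, hz t⟩
    rw [hZ] at h1
    obtain ⟨d, hd, h2⟩ := h1 (Subgroup.mem_top y)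
    exact ⟨d, hd, h2⟩
  -- the elements of `K i` are in `D`
  have hKD : ∀ i k, (∀ j, j ≠ i → φ j k = 1) → q i k = 1 → k ∈ D := by
    intro i k hk hqk
    let V : Subgroup (φ i).range :=
      { carrier := {v | ∃ x ∈ D, (∀ j, j ≠ i → φ j x = 1) ∧ (φ i).rangeRestrict x = v}
        one_mem' := ⟨1, D.one_mem, fun j _ => map_one _, map_one _⟩
        mul_mem' := by
          rintro a b ⟨x, hx, hx1, rfl⟩ ⟨y, hy, hy1, rfl⟩
          exact ⟨x * y, D.mul_mem hx hy, fun j hj => by rw [map_mul, hx1 j hj, hy1 j hj, one_mul],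
            map_mul _ _ _⟩
        inv_mem' := by
          rintro a ⟨x, hx, hx1, rfl⟩
          exact ⟨x⁻¹, D.inv_mem hx, fun j hj => by rw [map_inv, hx1 j hj, inv_one],
            map_inv _ _⟩ }
    have hV : V.Normal := by
      constructor
      rintro v ⟨x, hx, hx1, rfl⟩ y
      obtain ⟨d, hd, rfl⟩ := hDφ i y
      refine ⟨d * x * d⁻¹, D.mul_mem (D.mul_mem hd hx) (D.inv_mem hd), fun j hj => ?_, ?_⟩
      · rw [map_mul, map_mul, hx1 j hj, mul_one, map_inv, mul_inv_cancel]
      · rw [map_mul, map_mul, map_inv]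
    have hRV : (R i : Set (φ i).range) ⊆ V := by
      intro r hr
      have h1 := hg1 i r (hR1 i r hr)
      exact ⟨g i r, hgD i r hr, h1.1, h1.2⟩
    have h2 : π i ((φ i).rangeRestrict k) = 1 := Subtype.ext (by rw [hπa, hqk]; rfl)
    obtain ⟨x, hx, hx1, hx2⟩ := Subgroup.normalClosure_le_normal (N := V) hRV (hR2 i _ h2)
    have h3 : φ i x = φ i k := congrArg Subtype.val hx2
    have h4 : x⁻¹ * k = 1 := by
      apply hinj
      intro j
      by_cases hj : j = i
      · subst hj
        rw [map_mul, map_inv, h3, inv_mul_cancel]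
      · rw [map_mul, map_inv, hx1 j hj, hk j hj, inv_one, one_mul]
    rw [inv_mul_eq_one] at h4
    rw [← h4]
    exact hx
  have htop : D = ⊤ := by
    rw [eq_top_iff]
    intro a _
    obtain ⟨d, hd, hda⟩ := hDq ((MonoidHom.pi q).rangeRestrict a)
    have hda' : ∀ i, q i d = q i a := fun i => congrFun (congrArg Subtype.val hda) i
    set a' := d⁻¹ * a with ha'
    have hqa : ∀ i, q i a' = 1 := by
      intro i
      rw [ha', map_mul, map_inv, hda' i, inv_mul_cancel]
    choose k hk1 hk2 using fun i => hK i a' (hqa i)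
    have hkD : ∀ i, k i ∈ D := by
      intro i
      refine hKD i (k i) (hk1 i) ?_
      have h1 : q i (k i * a'⁻¹) = 1 := by
        apply hker
        rw [map_mul, map_inv, hk2 i, mul_inv_cancel]
      rw [map_mul, map_inv, hqa i, inv_one, mul_one] at h1
      exact h1
    have hy : ∀ m : ℕ, m ≤ n → ∃ y ∈ D, ∀ j : Fin n, φ j y = if (j : ℕ) < m then φ j a' else 1 := by
      intro m
      induction m with
      | zero =>
        intro _
        exact ⟨1, D.one_mem, fun j => by simp⟩
      | succ m ih =>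
        intro hm
        obtain ⟨y, hy, hy1⟩ := ih (by omega)
        refine ⟨y * k ⟨m, hm⟩, D.mul_mem hy (hkD _), fun j => ?_⟩
        rw [map_mul, hy1 j]
        by_cases hj : j = ⟨m, hm⟩
        · subst hj
          simp [hk2]
        · have hjm : (j : ℕ) ≠ m := fun h => hj (Fin.ext h)
          rw [hk1 ⟨m, hm⟩ j hj, mul_one]
          by_cases h1 : (j : ℕ) < m
          · rw [if_pos h1, if_pos (by omega)]
          · rw [if_neg h1, if_neg (by omega)]
    obtain ⟨y, hyD, hy1⟩ := hy n le_rfl
    have h5 : y⁻¹ * a' = 1 := by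
      apply hinj
      intro j
      rw [map_mul, map_inv, hy1 j, if_pos j.isLt, inv_mul_cancel]
    rw [inv_mul_eq_one] at h5
    have h6 : a = d * y := by
      rw [h5, ha']
      group
    rw [h6]
    exact D.mul_mem hd hyD
  exact Group.fg_def.mpr ⟨X, htop⟩

theorem task_T9 (hPC2 : TPC2) (hPC3 : TPC3) (h8 : T8) : T9 := by
  intro n Γ _ P _ f hinj hfg hVS
  -- the projections have ranges of finite index
  have hrange : ∀ i, Group.FG (f i).range := by
    intro i
    have h1 := hVS i ∅ (Finset.notMem_empty i) (by simp)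
    simp only [Finset.notMem_empty, iInf_false, iInf_top] at h1
    rw [← MonoidHom.range_eq_map] at h1
    haveI := h1
    haveI := hfg i
    exact Subgroup.fg_of_index_ne_zero _
  have hfi : ∀ i j, i ≠ j → ((f j).ker.map (f i)).FiniteIndex := by
    intro i j hij
    have h1 := hVS i {j} (by simpa using hij) (by simp)
    simpa using h1
  set S : ∀ i : Fin (n + 1), Subgroup P := fun i =>
    (⨅ j : Fin n, (f (i.succAbove j)).ker) ⊔ (f i).ker with hS
  have hKn : ∀ i : Fin (n + 1), (⨅ j : Fin n, (f (i.succAbove j)).ker).Normal := fun i =>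
    Subgroup.normal_iInf_normal fun j => inferInstance
  haveI hSn : ∀ i, (S i).Normal := fun i => by
    haveI := hKn i
    exact Subgroup.sup_normal _ _
  have hPCQ : ∀ i, PC (P ⧸ S i) inferInstance := by
    intro i
    refine h8 P n (f i).ker (fun j => (f (i.succAbove j)).ker) inferInstance
      (fun j => inferInstance) (fun j => ?_) (P ⧸ S i) (QuotientGroup.mk' (S i))
      (QuotientGroup.mk'_surjective _) (fun x => ?_) ?_
    · have h1 := hfi i (i.succAbove j) (Fin.succAbove_ne i j).symm
      rw [← Subgroup.comap_map_eq]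
      refine ⟨?_⟩
      rw [Subgroup.index_comap]
      exact (Subgroup.instFiniteIndex_subgroupOf _ (f i).range).index_ne_zero
    · exact QuotientGroup.eq_one_iff x
    · haveI := hrange i
      obtain ⟨g, hg⟩ := t9_factor (f i).rangeRestrict (f i).rangeRestrict_surjective
        (QuotientGroup.mk' (S i)) (fun a ha => by
          have h1 : f i a = 1 := congrArg Subtype.val ha
          exact (QuotientGroup.eq_one_iff a).mpr (Subgroup.mem_sup_right h1))
      refine Group.fg_of_surjective (f := g) ?_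
      intro y
      obtain ⟨a, ha⟩ := QuotientGroup.mk'_surjective (S i) y
      exact ⟨(f i).rangeRestrict a, by rw [hg, ha]⟩
  rw [← Group.fg_iff_subgroup_fg]
  refine t9_core (A := (f 0).ker) n (fun i => Γ i.succ) (fun i => P ⧸ S i.succ)
    (fun i => (f i.succ).comp (f 0).ker.subtype)
    (fun i => (QuotientGroup.mk' (S i.succ)).comp (f 0).ker.subtype) ?_ ?_ ?_ ?_ ?_ ?_
  · intro a ha
    apply Subtype.ext
    apply hinj
    intro i
    refine Fin.cases ?_ (fun j => ?_) i
    · exact a.2
    · exact ha j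
  · intro i
    have h1 := hfi i.succ 0 (Fin.succ_ne_zero i)
    have h2 : ((f i.succ).comp (f 0).ker.subtype).range = (f 0).ker.map (f i.succ) := by
      rw [MonoidHom.range_comp, Subgroup.range_subtype]
    rw [h2]
    haveI := h1
    haveI := hfg i.succ
    exact Subgroup.fg_of_index_ne_zero _
  · intro i a ha
    exact (QuotientGroup.eq_one_iff (a : P)).mpr (Subgroup.mem_sup_right ha)
  · intro i
    apply hPC2
    exact hPC3 (P ⧸ S i.succ) _ (MonoidHom.range _).subtype (Subgroup.subtype_injective _)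
      (hPCQ i.succ)
  · intro i a ha
    have h1 : (a : P) ∈ S i.succ := (QuotientGroup.eq_one_iff (a : P)).mp ha
    haveI := hKn i.succ
    have h2 : (a : P) ∈ (((⨅ j : Fin n, (f (i.succ.succAbove j)).ker : Subgroup P) : Set P) *
        ((f i.succ).ker : Set P)) := by
      rw [← Subgroup.mul_normal]
      exact h1
    obtain ⟨k, hk, y, hy, hky⟩ := h2
    have hk' : ∀ j, j ≠ i.succ → f j k = 1 := by
      intro j hj
      obtain ⟨j', rfl⟩ := Fin.exists_succAbove_eq hj
      exact (Subgroup.mem_iInf.mp hk) j'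
    have hk0 : k ∈ (f 0).ker := hk' 0 (Fin.succ_ne_zero i).symm
    refine ⟨⟨k, hk0⟩, fun j hj => hk' j.succ fun h => hj (Fin.succ_injective _ h), ?_⟩
    show f i.succ k = f i.succ (a : P)
    rw [← hky]
    show f i.succ k = f i.succ (k * y)
    rw [map_mul, show f i.succ y = 1 from hy, mul_one]
  · apply t9_fpres_fg
    apply hPC2
    exact hPC3 (∀ i : Fin n, P ⧸ S i.succ) _ (MonoidHom.range _).subtype
      (Subgroup.subtype_injective _) (t9_prod n _ fun i => hPCQ i.succ)

end Pool.Agent.H653R5
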