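import Pool.Agent.H653R5.Defs

set_option autoImplicit false

namespace Pool.Agent.H653R5

open Pool.Agent.H653R4

theorem task_VN (hN : TNil) : TVN := by
  intro G h hFG hL
  obtain ⟨L, hLi, hLn⟩ := hL
  have hKL : L.normalCore ≤ L := Subgroup.normalCore_le L
  have hKi : L.normalCore.FiniteIndex := inferInstance
  have hKn : L.normalCore.Normal := inferInstance
  have hKnil : Group.IsNilpotent L.normalCore := by
    have h1 : Group.IsNilpotent (L.normalCore.subgroupOf L) := inferInstance
    exact Group.nilpotent_of_mulEquiv (Subgroup.subgroupOfEquivOfLe hKL)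
  have hKfg : Group.FG L.normalCore := by
    haveI := hFG
    infer_instance
  have hf : Finite (G ⧸ L.normalCore) := inferInstance
  refine PC.ext (↥L.normalCore) G (G ⧸ L.normalCore) (L.normalCore.subtype)
    (QuotientGroup.mk' L.normalCore) (Subgroup.subtype_injective _)
    (QuotientGroup.mk'_surjective _) ?_ (hN _ hKfg hKnil) (PC.fin _ hf)
  intro g
  constructor
  · intro hg
    have : g ∈ L.normalCore := by
      rw [← QuotientGroup.ker_mk' L.normalCore]
      exact hg
    exact ⟨⟨g, this⟩, rfl⟩
  · rintro ⟨n, rfl⟩
    have : (n : G) ∈ (QuotientGroup.mk' L.normalCore).ker := by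
      rw [QuotientGroup.ker_mk']
      exact n.2
    exact this

end Pool.Agent.H653R5
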